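import Pool.Agent.Helper31.EC.Uns

/-!
# Robust upper bounds of conditional entropies pass to finer bases

An extension of the space `S.chg Z' e` over a finer base `Z'`, with an event, is an extension of the space `S.chg Z e`
(and of the space `S` itself) with the same event; conditional entropies over the finer base are smaller.
-/

set_option autoImplicit false

namespace Pool.Agent.Helper47.T4

open Finset Filter Topology Pool.Agent.Helper69.RK Pool.Agent.Helper31.EC Pool.Agent.Helper31.EC.Sp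

noncomputable section

variable {S : Sp}

/-- `Z'` is finer than `Z` over the base of the space -/
def Fin2 (Z Z' : ∀ k, Setoid (S.F k).Ω) : Prop :=
  ∀ k ω ω', (S.F k).μ ω ≠ 0 → (S.F k).μ ω' ≠ 0 → (S.F k).Z ω ω' → Z' k ω ω' → Z k ω ω'

/-- comparison of conditional entropies of two spaces -/
theorem h_cmp {T1 T2 : Sp} {A1 B1 : T1.Inf} {A2 B2 : T2.Inf} {c : ℝ}
    (h : ∀ k, T1.rt A1.1 B1.1 k ≤ c * T2.rt A2.1 B2.1 k) :
    Pool.Agent.Helper31.EC.h (cl A1) (cl B1) ≤ c * Pool.Agent.Helper31.EC.h (cl A2) (cl B2) := by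
  rw [h_cl, h_cl, ← ul_const_mul _ (UB_rt _ _)]
  exact ul_mono (UB_rt _ _) ((UB_rt _ _).const_mul _) (Eventually.of_forall h)

section nest

variable {Z Z' : ∀ k, Setoid (S.F k).Ω}

/-- CONDITIONAL ENTROPIES DECREASE if the base gets finer -/
theorem h_nest_le (hZ : Fin2 Z Z') {e : ℝ} (he : 0 < e) (x y : S.L) :
    h (chgL Z' e he x) (chgL Z' e he y) ≤ h (chgL Z e he x) (chgL Z e he y) := by
  induction x using Sp.cl_ind with | h A
  induction y using Sp.cl_ind with | h B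
  rw [chgL_cl, chgL_cl, chgL_cl, chgL_cl, ← one_mul (h (cl (chgI Z e he A)) _)]
  apply h_cmp
  intro k
  rw [one_mul, chg_rt, chg_rt]
  apply div_le_div_of_nonneg_right _ he.le
  unfold Sp.rt
  apply div_le_div_of_nonneg_right _ (S.F k).pos.le
  apply (S.F k).e_anti
  intro ω ω' hω hω' g
  exact ⟨⟨g.1.1, hZ k ω ω' hω hω' g.2 g.1.2⟩, g.2⟩

theorem nest_le (hZ : Fin2 Z Z') {e : ℝ} (he : 0 < e) {x y : S.L} (hx : chgL Z e he x ≤ chgL Z e he y) :
    chgL Z' e he x ≤ chgL Z' e he y := by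
  rw [← h_eq_zero_iff] at hx ⊢
  have h1 := h_nest_le hZ he x y
  rw [hx] at h1
  exact le_antisymm h1 (h_nonneg _ _)

variable {e : ℝ} {he : 0 < e} {T : Sp} (p : Pj T (S.chg Z' e he)) (Z)

/-- an extension over the base `Z'` as an extension over the base `Z` -/
def unF : Sp where
  F := fun k =>
    { Ω := (T.F k).Ω
      ft := (T.F k).ft
      μ := (T.F k).μ
      nn := (T.F k).nn
      ms := (T.F k).ms
      Z := Setoid.comap (p.π k) (Z k ⊓ (S.F k).Z)
      n := (T.F k).n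
      pos := (T.F k).pos }
  lim := T.lim

/-- its projection -/
def unP : Pj (unF Z p) (S.chg Z e he) := ⟨p.π, p.law, fun _ _ _ _ _ => Iff.rfl, p.hn⟩

theorem unF_pr (E : ∀ k, (T.F k).Ω → Prop) : (unF Z p).pr E = T.pr E := rfl

theorem unF_ul (E : ∀ k, (T.F k).Ω → Prop) : ul ((unF Z p).pr E) = ul (T.pr E) := rfl

variable {Z} (hZ : Fin2 Z Z') (E : ∀ k, (T.F k).Ω → Prop) (hE : 0 < ul (T.pr E))

include hZ in
theorem unF_rt (A B : ∀ k, Setoid (T.F k).Ω) (k : ℕ) : (T.rest E).rt A B k ≤ ((unF Z p).rest E).rt A B k := by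
  have h1 : (T.rest E).rt A B k = ((T.F k).rest (E k)).e (A k) (B k ⊓ (T.F k).Z) / (T.F k).n := rfl
  have h2 : ((unF Z p).rest E).rt A B k =
      ((T.F k).rest (E k)).e (A k) (B k ⊓ Setoid.comap (p.π k) (Z k ⊓ (S.F k).Z)) / (T.F k).n := rfl
  rw [h1, h2]
  apply div_le_div_of_nonneg_right _ (T.F k).pos.le
  apply ((T.F k).rest (E k)).e_anti
  intro ω ω' hω hω' g
  have s1 := ((T.F k).rest_supp (E k) ω hω).1
  have s2 := ((T.F k).rest_supp (E k) ω' hω').1
  have g2 : (Z' k ⊓ (S.F k).Z) (p.π k ω) (p.π k ω') := (p.hZ k ω ω' s1 s2).mp g.2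
  exact ⟨g.1, hZ k _ _ (p.supp k ω s1) (p.supp k ω' s2) g2.2 g2.1, g2.2⟩

include hZ in
/-- ROBUST BOUNDS over a finer base -/
theorem h_unF (x y : S.L) :
    h (restL E hE (p.map (chgL Z' e he x))) (restL E hE (p.map (chgL Z' e he y))) ≤
      h (restL (S := unF Z p) E hE ((unP Z p).map (chgL Z e he x)))
        (restL (S := unF Z p) E hE ((unP Z p).map (chgL Z e he y))) := by
  induction x using Sp.cl_ind with | h A
  induction y using Sp.cl_ind with | h B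
  obtain ⟨A1, hA1⟩ : ∃ A1 : (T.rest E).Inf, A1 = Sp.restI E (p.mapI (chgI Z' e he A)) := ⟨_, rfl⟩
  obtain ⟨B1, hB1⟩ : ∃ B1 : (T.rest E).Inf, B1 = Sp.restI E (p.mapI (chgI Z' e he B)) := ⟨_, rfl⟩
  obtain ⟨A2, hA2⟩ : ∃ A2 : ((unF Z p).rest E).Inf, A2 = Sp.restI (S := unF Z p) E ((unP Z p).mapI (chgI Z e he A)) := ⟨_, rfl⟩
  obtain ⟨B2, hB2⟩ : ∃ B2 : ((unF Z p).rest E).Inf, B2 = Sp.restI (S := unF Z p) E ((unP Z p).mapI (chgI Z e he B)) := ⟨_, rfl⟩
  have e1 : restL E hE (p.map (chgL Z' e he (cl A))) = cl A1 := by rw [hA1]; rfl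
  have e2 : restL E hE (p.map (chgL Z' e he (cl B))) = cl B1 := by rw [hB1]; rfl
  have e3 : restL (S := unF Z p) E hE ((unP Z p).map (chgL Z e he (cl A))) = cl A2 := by rw [hA2]; rfl
  have e4 : restL (S := unF Z p) E hE ((unP Z p).map (chgL Z e he (cl B))) = cl B2 := by rw [hB2]; rfl
  rw [e1, e2, e3, e4, ← one_mul (h (cl A2) _)]
  apply h_cmp
  intro k
  rw [one_mul]
  refine (unF_rt p hZ E A1.1 B1.1 k).trans (le_of_eq ?_)
  rw [hA1, hB1, hA2, hB2]
  rfl

theorem unF_rt' (hZ' : Fin2 Z' Z) (A B : ∀ k, Setoid (T.F k).Ω) (k : ℕ) :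
    ((unF Z p).rest E).rt A B k ≤ (T.rest E).rt A B k := by
  have h1 : (T.rest E).rt A B k = ((T.F k).rest (E k)).e (A k) (B k ⊓ (T.F k).Z) / (T.F k).n := rfl
  have h2 : ((unF Z p).rest E).rt A B k =
      ((T.F k).rest (E k)).e (A k) (B k ⊓ Setoid.comap (p.π k) (Z k ⊓ (S.F k).Z)) / (T.F k).n := rfl
  rw [h1, h2]
  apply div_le_div_of_nonneg_right _ (T.F k).pos.le
  apply ((T.F k).rest (E k)).e_anti
  intro ω ω' hω hω' g
  have s1 := ((T.F k).rest_supp (E k) ω hω).1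
  have s2 := ((T.F k).rest_supp (E k) ω' hω').1
  have g2 : (Z k ⊓ (S.F k).Z) (p.π k ω) (p.π k ω') := g.2
  have g3 : (Z' k ⊓ (S.F k).Z) (p.π k ω) (p.π k ω') :=
    ⟨hZ' k _ _ (p.supp k ω s1) (p.supp k ω' s2) g2.2 g2.1, g2.2⟩
  exact ⟨g.1, (p.hZ k ω ω' s1 s2).mpr g3⟩

/-- the space over a finer base has smaller conditional entropies, on all events of extensions -/
theorem h_unF' (hZ' : Fin2 Z' Z) (x y : S.L) :
    h (restL (S := unF Z p) E hE ((unP Z p).map (chgL Z e he x)))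
        (restL (S := unF Z p) E hE ((unP Z p).map (chgL Z e he y))) ≤
      h (restL E hE (p.map (chgL Z' e he x))) (restL E hE (p.map (chgL Z' e he y))) := by
  induction x using Sp.cl_ind with | h A
  induction y using Sp.cl_ind with | h B
  obtain ⟨A1, hA1⟩ : ∃ A1 : (T.rest E).Inf, A1 = Sp.restI E (p.mapI (chgI Z' e he A)) := ⟨_, rfl⟩
  obtain ⟨B1, hB1⟩ : ∃ B1 : (T.rest E).Inf, B1 = Sp.restI E (p.mapI (chgI Z' e he B)) := ⟨_, rfl⟩
  obtain ⟨A2, hA2⟩ : ∃ A2 : ((unF Z p).rest E).Inf, A2 = Sp.restI (S := unF Z p) E ((unP Z p).mapI (chgI Z e he A)) := ⟨_, rfl⟩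
  obtain ⟨B2, hB2⟩ : ∃ B2 : ((unF Z p).rest E).Inf, B2 = Sp.restI (S := unF Z p) E ((unP Z p).mapI (chgI Z e he B)) := ⟨_, rfl⟩
  have e1 : restL E hE (p.map (chgL Z' e he (cl A))) = cl A1 := by rw [hA1]; rfl
  have e2 : restL E hE (p.map (chgL Z' e he (cl B))) = cl B1 := by rw [hB1]; rfl
  have e3 : restL (S := unF Z p) E hE ((unP Z p).map (chgL Z e he (cl A))) = cl A2 := by rw [hA2]; rfl
  have e4 : restL (S := unF Z p) E hE ((unP Z p).map (chgL Z e he (cl B))) = cl B2 := by rw [hB2]; rfl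
  rw [e1, e2, e3, e4, ← one_mul (h (cl A1) _)]
  apply h_cmp
  intro k
  rw [one_mul]
  refine le_trans (le_of_eq ?_) (unF_rt' p E hZ' A1.1 B1.1 k)
  rw [hA1, hB1, hA2, hB2]
  rfl

end nest

section dep

/-! ### the space itself as the coarser base, with its own depth -/

variable {Z' : ∀ k, Setoid (S.F k).Ω} {e : ℝ} {he : 0 < e} {T : Sp} (p : Pj T (S.chg Z' e he))

/-- conditional entropies over a base with the depth `e n` -/
theorem h_chg_div (x y : S.L) : h (chgL Z' e he x) (chgL Z' e he y) ≤ h x y / e := by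
  induction x using Sp.cl_ind with | h A
  induction y using Sp.cl_ind with | h B
  rw [chgL_cl, chgL_cl, div_eq_inv_mul]
  apply h_cmp
  intro k
  rw [chg_rt, ← div_eq_inv_mul]
  apply div_le_div_of_nonneg_right _ he.le
  exact rt_anti _ _ _ k inf_le_left

/-- an extension over a base with the depth `e n` as an extension of the space -/
def unD : Sp where
  F := fun k =>
    { Ω := (T.F k).Ω
      ft := (T.F k).ft
      μ := (T.F k).μ
      nn := (T.F k).nn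
      ms := (T.F k).ms
      Z := Setoid.comap (p.π k) (S.F k).Z
      n := (S.F k).n
      pos := (S.F k).pos }
  lim := S.lim

/-- its projection -/
def unDP : Pj (unD p) S := ⟨p.π, p.law, fun _ _ _ _ _ => Iff.rfl, fun _ => rfl⟩

theorem unD_ul (E : ∀ k, (T.F k).Ω → Prop) : ul ((unD p).pr E) = ul (T.pr E) := rfl

variable (E : ∀ k, (T.F k).Ω → Prop) (hE : 0 < ul (T.pr E))

theorem unD_rt (A B : ∀ k, Setoid (T.F k).Ω) (k : ℕ) :
    (T.rest E).rt A B k ≤ e⁻¹ * ((unD p).rest E).rt A B k := by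
  have h1 : (T.rest E).rt A B k = ((T.F k).rest (E k)).e (A k) (B k ⊓ (T.F k).Z) / (T.F k).n := rfl
  have h2 : ((unD p).rest E).rt A B k =
      ((T.F k).rest (E k)).e (A k) (B k ⊓ Setoid.comap (p.π k) (S.F k).Z) / (S.F k).n := rfl
  have h0 : (T.F k).n = e * (S.F k).n := p.hn k
  have h4 : ((T.F k).rest (E k)).e (A k) (B k ⊓ (T.F k).Z) ≤
      ((T.F k).rest (E k)).e (A k) (B k ⊓ Setoid.comap (p.π k) (S.F k).Z) := by
    apply ((T.F k).rest (E k)).e_anti
    intro ω ω' hω hω' g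
    have s1 := ((T.F k).rest_supp (E k) ω hω).1
    have s2 := ((T.F k).rest_supp (E k) ω' hω').1
    have g2 : (Z' k ⊓ (S.F k).Z) (p.π k ω) (p.π k ω') := (p.hZ k ω ω' s1 s2).mp g.2
    exact ⟨g.1, g2.2⟩
  have hn := (S.F k).pos
  rw [h1, h2, h0, ← div_eq_inv_mul, div_div, mul_comm (S.F k).n e]
  exact div_le_div_of_nonneg_right h4 (mul_pos he hn).le

/-- ROBUST BOUNDS in the space over a base with the depth `e n`, from the space -/
theorem h_unD (x y : S.L) :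
    h (restL E hE (p.map (chgL Z' e he x))) (restL E hE (p.map (chgL Z' e he y))) ≤
      h (restL (S := unD p) E hE ((unDP p).map x)) (restL (S := unD p) E hE ((unDP p).map y)) / e := by
  induction x using Sp.cl_ind with | h A
  induction y using Sp.cl_ind with | h B
  obtain ⟨A1, hA1⟩ : ∃ A1 : (T.rest E).Inf, A1 = Sp.restI E (p.mapI (chgI Z' e he A)) := ⟨_, rfl⟩
  obtain ⟨B1, hB1⟩ : ∃ B1 : (T.rest E).Inf, B1 = Sp.restI E (p.mapI (chgI Z' e he B)) := ⟨_, rfl⟩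
  obtain ⟨A2, hA2⟩ : ∃ A2 : ((unD p).rest E).Inf, A2 = Sp.restI (S := unD p) E ((unDP p).mapI A) := ⟨_, rfl⟩
  obtain ⟨B2, hB2⟩ : ∃ B2 : ((unD p).rest E).Inf, B2 = Sp.restI (S := unD p) E ((unDP p).mapI B) := ⟨_, rfl⟩
  have e1 : restL E hE (p.map (chgL Z' e he (cl A))) = cl A1 := by rw [hA1]; rfl
  have e2 : restL E hE (p.map (chgL Z' e he (cl B))) = cl B1 := by rw [hB1]; rfl
  have e3 : restL (S := unD p) E hE ((unDP p).map (cl A)) = cl A2 := by rw [hA2]; rfl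
  have e4 : restL (S := unD p) E hE ((unDP p).map (cl B)) = cl B2 := by rw [hB2]; rfl
  rw [e1, e2, e3, e4, div_eq_inv_mul]
  apply h_cmp
  intro k
  refine (unD_rt p E A1.1 B1.1 k).trans (le_of_eq ?_)
  rw [hA1, hB1, hA2, hB2]
  rfl

end dep

section inf

/-- the base `Z` with an information -/
def infZ (Z : ∀ k, Setoid (S.F k).Ω) (A : S.Inf) : ∀ k, Setoid (S.F k).Ω := fun k => Z k ⊓ A.1 k

theorem Fin2_infZ (Z : ∀ k, Setoid (S.F k).Ω) (A : S.Inf) : Fin2 Z (infZ Z A) := fun _ _ _ _ _ _ h => h.1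

/-- conditional entropies over the base with an information -/
theorem h_infZ (Z : ∀ k, Setoid (S.F k).Ω) (A : S.Inf) {e : ℝ} (he : 0 < e) (x y : S.L) :
    h (chgL (infZ Z A) e he x) (chgL (infZ Z A) e he y) = h (chgL Z e he x) (chgL Z e he (y ⊔ cl A)) := by
  induction x using Sp.cl_ind with | h X
  induction y using Sp.cl_ind with | h Y
  have e0 : cl Y ⊔ cl A = cl (Inf.sup Y A) := (cl_sup Y A).symm
  rw [e0, chgL_cl, chgL_cl, chgL_cl, chgL_cl, h_cl, h_cl]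
  congr 1
  funext k
  have h1 : (S.chg (infZ Z A) e he).rt (chgI (infZ Z A) e he X).1 (chgI (infZ Z A) e he Y).1 k =
      S.rt X.1 (fun k => Y.1 k ⊓ infZ Z A k) k / e := chg_rt (infZ Z A) e he X.1 Y.1 k
  have h2 : (S.chg Z e he).rt (chgI Z e he X).1 (chgI Z e he (Inf.sup Y A)).1 k =
      S.rt X.1 (fun k => (Inf.sup Y A).1 k ⊓ Z k) k / e := chg_rt Z e he X.1 (Inf.sup Y A).1 k
  rw [h1, h2]
  congr 2
  funext k
  show Y.1 k ⊓ (Z k ⊓ A.1 k) = (Y.1 k ⊓ A.1 k) ⊓ Z k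
  rw [inf_comm (Z k), inf_assoc]

theorem infZ_le (Z : ∀ k, Setoid (S.F k).Ω) (A : S.Inf) {e : ℝ} (he : 0 < e) {x y : S.L}
    (hx : chgL Z e he x ≤ chgL Z e he (y ⊔ cl A)) : chgL (infZ Z A) e he x ≤ chgL (infZ Z A) e he y := by
  rw [← h_eq_zero_iff, h_infZ]
  exact h_zero hx

theorem H_infZ (Z : ∀ k, Setoid (S.F k).Ω) (A : S.Inf) {e : ℝ} (he : 0 < e) (x : S.L) :
    H (chgL (infZ Z A) e he x) = h (chgL Z e he x) (chgL Z e he (cl A)) := by
  have h1 := h_infZ Z A he x ⊥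
  rw [chgL_bot, h_bot, bot_sup_eq] at h1
  exact h1

end inf

end

end Pool.Agent.Helper47.T4
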