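import Pool.Agent.Helper15.T4.Stmts

set_option autoImplicit false

open Finset

namespace Pool.Agent.Helper47.T4

open Pool.Agent.Helper15.T4

/-- The condition of `w1`, in decidable form. -/
def pk2_cond (a b c : L1) : Prop :=
  a.1 ≠ b.1 ∧ a.1 ≠ c.1 ∧ b.1 ≠ c.1 ∧ vc a = vc b ∧ vc a = vc c

instance pk2_dec (a b c : L1) : Decidable (pk2_cond a b c) := by
  unfold pk2_cond
  infer_instance

lemma pk2_w1 (a b c : L1) : w1 a b c = ((if pk2_cond a b c then 1 else 0 : ℕ) : ℝ) := by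
  unfold w1
  by_cases h : pk2_cond a b c
  · rw [if_pos h, if_pos (by exact h)]
    simp
  · rw [if_neg h, if_neg (by exact h)]
    simp

lemma pk2_cond_swap (a b c : L1) : pk2_cond a b c ↔ pk2_cond b a c := by
  unfold pk2_cond
  constructor
  · rintro ⟨h1, h2, h3, h4, h5⟩
    exact ⟨h1.symm, h3, h2, h4.symm, h4 ▸ h5⟩
  · rintro ⟨h1, h2, h3, h4, h5⟩
    exact ⟨h1.symm, h3, h2, h4.symm, h4 ▸ h5⟩

lemma pk2_cond_swap' (a b c : L1) : pk2_cond a b c ↔ pk2_cond a c b := by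
  unfold pk2_cond
  constructor
  · rintro ⟨h1, h2, h3, h4, h5⟩
    exact ⟨h2, h1, h3.symm, h5, h4⟩
  · rintro ⟨h1, h2, h3, h4, h5⟩
    exact ⟨h2, h1, h3.symm, h5, h4⟩

lemma pk2_count : ∀ c : L1, ∑ a : L1, ∑ b : L1, (if pk2_cond a b c then 1 else 0 : ℕ) = 2 := by
  decide +kernel

lemma pk2_sum_w1 (c : L1) : ∑ a : L1, ∑ b : L1, w1 a b c = 2 := by
  have h := pk2_count c
  have h2 : ((∑ a : L1, ∑ b : L1, (if pk2_cond a b c then 1 else 0 : ℕ) : ℕ) : ℝ) = ((2 : ℕ) : ℝ) := by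
    rw [h]
  rw [Nat.cast_sum] at h2
  simp only [Nat.cast_sum] at h2
  calc ∑ a : L1, ∑ b : L1, w1 a b c
      = ∑ a : L1, ∑ b : L1, ((if pk2_cond a b c then 1 else 0 : ℕ) : ℝ) := by
        apply Finset.sum_congr rfl
        intro a _
        apply Finset.sum_congr rfl
        intro b _
        exact pk2_w1 a b c
    _ = ((2 : ℕ) : ℝ) := h2
    _ = 2 := by norm_num

lemma pk2_row (a : L1) : ∑ i : L1, S1 a i = (Real.sqrt 2 : ℂ) := by
  rw [Fintype.sum_prod_type]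
  have h1 : ∀ x : Fin 4, ∑ y : Fin 3, S1 a (x, y) = if a.1 = x then (Real.sqrt 2 : ℂ) else 0 := by
    intro x
    unfold S1
    by_cases hx : a.1 = x
    · simp only [hx, if_true]
      rw [Finset.sum_add_distrib]
      simp only [Finset.sum_const, Finset.card_univ, Fintype.card_fin, Finset.sum_ite_eq,
        Finset.mem_univ, if_true, nsmul_eq_mul]
      push_cast
      ring
    · simp only [hx, if_false, Finset.sum_const_zero]
  simp only [h1]
  simp

lemma pk2_S1_symm (a i : L1) : S1 a i = S1 i a := by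
  unfold S1
  simp only [eq_comm (a := a.1) (b := i.1), eq_comm (a := a.2) (b := i.2)]

lemma pk2_col (i : L1) : ∑ a : L1, S1 a i = (Real.sqrt 2 : ℂ) := by
  rw [← pk2_row i]
  exact Finset.sum_congr rfl (fun a _ => pk2_S1_symm a i)

lemma pk2_sqrt : (Real.sqrt 2 : ℂ) * (Real.sqrt 2 : ℂ) = 2 := by
  rw [← Complex.ofReal_mul, Real.mul_self_sqrt (by norm_num)]
  norm_num

lemma pk2_row2 (a : L1 × L1) : ∑ i : L1 × L1, m2.S a i = 2 := by
  have h : ∀ i : L1 × L1, m2.S a i = S1 a.1 i.1 * S1 a.2 i.2 := fun i => rfl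
  simp only [h]
  rw [Fintype.sum_prod_type]
  simp only
  rw [← Finset.sum_mul_sum, pk2_row, pk2_row, pk2_sqrt]

lemma pk2_col2 (i : L1 × L1) : ∑ a : L1 × L1, m2.S a i = 2 := by
  have h : ∀ a : L1 × L1, m2.S a i = S1 a.1 i.1 * S1 a.2 i.2 := fun a => rfl
  simp only [h]
  rw [Fintype.sum_prod_type]
  simp only
  rw [← Finset.sum_mul_sum, pk2_col, pk2_col, pk2_sqrt]

lemma pk2_l (a : L1 × L1) : m2.l a u2 = 1 / 6 := by
  unfold Mdl.l u2
  rw [← Finset.sum_mul, pk2_row2]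
  push_cast
  norm_num

lemma pk2_w2 (c : L1 × L1) : ∑ a : L1 × L1, ∑ b : L1 × L1, m2.w a b c = 4 := by
  have h : ∀ a b : L1 × L1, m2.w a b c = w1 a.1 b.1 c.1 * w1 a.2 b.2 c.2 := fun a b => rfl
  simp only [h]
  calc ∑ a : L1 × L1, ∑ b : L1 × L1, w1 a.1 b.1 c.1 * w1 a.2 b.2 c.2
      = ∑ a : L1 × L1, (∑ b : L1, w1 a.1 b c.1) * (∑ b : L1, w1 a.2 b c.2) := by
        apply Finset.sum_congr rfl
        intro a _
        rw [Fintype.sum_prod_type]
        simp only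
        rw [← Finset.sum_mul_sum]
    _ = (∑ a : L1, ∑ b : L1, w1 a b c.1) * (∑ a : L1, ∑ b : L1, w1 a b c.2) := by
        rw [Fintype.sum_prod_type]
        simp only
        rw [← Finset.sum_mul_sum]
    _ = 4 := by rw [pk2_sum_w1, pk2_sum_w1]; norm_num

lemma pk2_T (h : L1 × L1 → ℝ) : m2.T u2 u2 h = ((8 / 3 : ℝ) : ℂ) * ((∑ i, u2 i * h i : ℝ) : ℂ) := by
  have h1 : m2.T u2 u2 h = ∑ c, (1 / 36 * ((∑ a : L1 × L1, ∑ b : L1 × L1, m2.w a b c : ℝ) : ℂ)) *
      m2.l c h := by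
    unfold Mdl.T
    simp only [pk2_l]
    calc ∑ a, ∑ b, ∑ c, (m2.w a b c : ℂ) * (1 / 6) * (1 / 6) * m2.l c h
        = ∑ a, ∑ c, ∑ b, (m2.w a b c : ℂ) * (1 / 6) * (1 / 6) * m2.l c h := by
          apply Finset.sum_congr rfl
          intro a _
          exact Finset.sum_comm
      _ = ∑ c, ∑ a, ∑ b, (m2.w a b c : ℂ) * (1 / 6) * (1 / 6) * m2.l c h := Finset.sum_comm
      _ = ∑ c, (1 / 36 * ((∑ a : L1 × L1, ∑ b : L1 × L1, m2.w a b c : ℝ) : ℂ)) * m2.l c h := by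
          apply Finset.sum_congr rfl
          intro c _
          push_cast
          rw [Finset.mul_sum, Finset.sum_mul]
          apply Finset.sum_congr rfl
          intro a _
          rw [Finset.mul_sum, Finset.sum_mul]
          apply Finset.sum_congr rfl
          intro b _
          ring
  rw [h1]
  simp only [pk2_w2]
  have h2 : ∑ c, m2.l c h = 2 * ∑ i, (h i : ℂ) := by
    unfold Mdl.l
    rw [Finset.sum_comm]
    rw [Finset.mul_sum]
    apply Finset.sum_congr rfl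
    intro i _
    rw [← Finset.sum_mul, pk2_col2]
  rw [← Finset.mul_sum, h2]
  have h3 : (∑ i, u2 i * h i : ℝ) = 1 / 12 * ∑ i, h i := by
    unfold u2
    rw [Finset.mul_sum]
  rw [h3]
  push_cast
  ring

lemma pk2_nsq : nsq u2 = 1 := by
  unfold nsq u2
  simp only [Finset.sum_const, Finset.card_univ, Fintype.card_prod, Fintype.card_fin, nsmul_eq_mul]
  norm_num

lemma pk2_symm : m2.Symm := by
  intro a b c
  have e : ∀ a b c : L1 × L1, m2.w a b c = w1 a.1 b.1 c.1 * w1 a.2 b.2 c.2 := fun a b c => rfl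
  have s1 : ∀ a b c : L1, w1 a b c = w1 b a c := by
    intro a b c
    rw [pk2_w1, pk2_w1]
    simp only [pk2_cond_swap a b c]
  have s2 : ∀ a b c : L1, w1 a b c = w1 a c b := by
    intro a b c
    rw [pk2_w1, pk2_w1]
    simp only [pk2_cond_swap' a b c]
  refine ⟨?_, ?_⟩
  · rw [e, e, s1 a.1 b.1 c.1, s1 a.2 b.2 c.2]
  · rw [e, e, s2 a.1 b.1 c.1, s2 a.2 b.2 c.2]

theorem PK2 (h1 : ST_MPK) (h2 : ST_IB) (h3 : ST_POS2) : ST_PK2 := by
  have hQ : (QT m2.T u2 (8 / 3)) = QT m2.T u2 (8 / 3 : ℝ) := rfl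
  exact h1 (L1 × L1) (L1 × L1) m2 u2 (8 / 3) pk2_symm pk2_nsq (by norm_num) pk2_T
    (fun x => (h2 x).1) (fun x hx => (h2 x).2 hx) h3

end Pool.Agent.Helper47.T4
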