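import Pool.Agent.Helper47.T4.Ct
import Pool.Agent.Helper60.CS.Zo

/-!
# Tame functions of a space in the space over a label
-/

set_option autoImplicit false

namespace Pool.Agent.Helper47.T4

open Finset Filter Topology Pool.Agent.Helper69.RK Pool.Agent.Helper31.EC Pool.Agent.Helper31.EC.Sp
open Pool.Agent.Helper60.CS

noncomputable section

theorem chgL_finsup {S : Sp} (Z : ∀ k, Setoid (S.F k).Ω) (e : ℝ) (he : 0 < e) {ι : Type*} (s : Finset ι) (f : ι → S.L) :
    chgL Z e he (s.sup f) = s.sup fun i => chgL Z e he (f i) := by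
  classical
  induction s using Finset.induction_on with
  | empty => rfl
  | insert a s ha ih => rw [Finset.sup_insert, Finset.sup_insert, chgL_sup, ih]

theorem gd_trc {S : Sp} (Z : ∀ k, Setoid (S.F k).Ω) (e : ℝ) (he : 0 < e) {k : ℕ} (g : Fin (k + 1) → TR S) (u : ℝ) :
    gd (fun i => trc Z e he (g i)) u = chgL Z e he (gd g (e * u)) := by
  unfold gd
  rw [chgL_finsup]
  congr 1
  funext i
  exact trc_dg Z e he (g i) u

/-- literal functions of the new base have no digits -/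
theorem trc_dg_bot {S : Sp} {Z : ∀ k, Setoid (S.F k).Ω} {e : ℝ} (he : 0 < e) {f : TR S}
    (hf : ∀ᶠ k in UF, ∀ ω ω', (S.F k).μ ω ≠ 0 → (S.F k).μ ω' ≠ 0 → (Z k ⊓ (S.F k).Z) ω ω' → f.1 k ω = f.1 k ω') (u : ℝ) :
    TR.dg (trc Z e he f) u = ⊥ := by
  apply le_antisymm _ _root_.bot_le
  rw [← cl_bot]
  apply TR.dg_le_cl _ _ _ (fun _ _ => True) Typ_true (fun _ => 0) ((S.chg Z e he).Sub_const le_rfl)
  filter_upwards [hf] with k hk ω ω' a b _ _ q _
  have h1 : f.1 k ω = f.1 k ω' := hk ω ω' a b q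
  show |f.1 k ω - f.1 k ω'| ≤ 0 * (S.chg Z e he).dl u k
  rw [h1, sub_self, abs_zero, zero_mul]

theorem te_trc {S : Sp} (Z : ∀ k, Setoid (S.F k).Ω) (e : ℝ) (he : 0 < e) {f g : TR S} (h : TR.Te f g) :
    TR.Te (trc Z e he f) (trc Z e he g) := by
  obtain ⟨E, hE, hh⟩ := h
  exact ⟨E, typ_chg Z e he hE, hh⟩

theorem te_pow {S : Sp} {f g : TR S} (h : TR.Te f g) (n : ℕ) : TR.Te (f ^ n) (g ^ n) := by
  induction n with
  | zero => rw [pow_zero, pow_zero]; exact TR.Te.refl _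
  | succ n ih => rw [pow_succ, pow_succ]; exact ih.mul h

end

end Pool.Agent.Helper47.T4
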