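import Pool.Agent.Helper47.T4.Ct
import Pool.Agent.Helper47.T4.Fine
import Pool.Agent.Helper97.SL.Ssl2
import Pool.Agent.Helper47.T4.Trc

/-!
# (i) FREEk: the coefficients of a curve of degree `k` are functions of the line, the time and the top coordinate

`free_aux`: the static sheet lemma with base dimension `1` (the time), over a space whose base contains the line.
`free_nest`: the same over a label `Z` of `S` with the depth `e n`, all hypotheses with errors.
-/

set_option autoImplicit false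

namespace Pool.Agent.Helper47.T4

open Finset Filter Topology Pool.Agent.Helper3.LF Pool.Agent.Helper69.RK Pool.Agent.Helper31.EC
  Pool.Agent.Helper31.EC.Sp Pool.Agent.Helper97.SL Pool.Agent.Helper60.CS

noncomputable section

variable {S : Sp}

/-- the monomials in one variable -/
def mon1 (k : ℕ) : Mon 1 k ≃ Fin (k + 1) where
  toFun a := a.1 0
  invFun i := ⟨fun _ => i, by
    have := i.2
    simp
    omega⟩
  left_inv a := by
    apply Subtype.ext
    funext i
    rw [Subsingleton.elim i 0]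
  right_inv _ := rfl

/-- the coefficients as a family over the monomials in one variable -/
def gf {k : ℕ} (g : Fin (k + 1) → TR S) : Mon 1 k → TR S := fun a => g (mon1 k a)

theorem pe_gf {k : ℕ} (g : Fin (k + 1) → TR S) (t : TR S) :
    pe (gf g) (fun _ : Fin 1 => t) = ∑ i : Fin (k + 1), g i * t ^ (i : ℕ) := by
  unfold pe
  rw [← Equiv.sum_comp (mon1 k) fun i => g i * t ^ (i : ℕ)]
  apply Finset.sum_congr rfl
  intro a _
  rw [Fin.prod_univ_one]
  rfl

theorem cv_gf {k : ℕ} (g : Fin (k + 1) → TR S) (r : ℝ) : (cv (gf g)).dg r = gd g r := by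
  apply le_antisymm
  · exact cv_dg_le _ _ _ fun a => dg_le_gd g r _
  · rw [gd_le]
    intro i
    have h1 := dg_le_cv (gf g) r ((mon1 k).symm i)
    unfold gf at h1
    rwa [Equiv.apply_symm_apply] at h1

/-- entropies of digits of the coefficients -/
theorem h_gd_le {k : ℕ} (g : Fin (k + 1) → TR S) {a b : ℝ} (hab : a ≤ b) (A : S.L) (hA : gd g a ≤ A) :
    h (gd g b) A ≤ (k + 1) * (b - a) := by
  refine (h_finsup_le Finset.univ _ A).trans ?_
  have h1 : ∀ i ∈ (Finset.univ : Finset (Fin (k + 1))), h (TR.dg (g i) b) A ≤ b - a := by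
    intro i _
    have h2 := VV.h_dg_dg (TR.vec (fun _ : Fin 1 => g i)) hab
    rw [Nat.cast_one, one_mul] at h2
    exact (h_anti ((dg_le_gd g a i).trans hA)).trans h2
  refine (Finset.sum_le_sum h1).trans ?_
  rw [Finset.sum_const, Finset.card_univ, Fintype.card_fin, nsmul_eq_mul]
  push_cast
  exact le_rfl

theorem restL_gd {k : ℕ} (E : ∀ k, (S.F k).Ω → Prop) (hE : 0 < ul (S.pr E)) (g : Fin (k + 1) → TR S) (r : ℝ) :
    restL E hE (gd g r) = gd (fun i => TR.rest E (g i)) r := by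
  unfold gd
  rw [restL_finsup]
  congr 1
  funext i
  exact (TR.rest_dg E hE (g i) r).symm

/-- a function on an event of large probability -/
theorem h_le_of_event {x y : S.L} {M q : ℝ} (E : ∀ k, (S.F k).Ω → Prop) (hq : 1 - q ≤ ul (S.pr E)) (hM : 0 ≤ M)
    (hq0 : 0 ≤ q) (h1 : ∀ hE : 0 < ul (S.pr E), restL E hE x ≤ restL E hE y)
    (h2 : ∀ (F : ∀ k, (S.F k).Ω → Prop) (hF : 0 < ul (S.pr F)), h (restL F hF x) (restL F hF y) ≤ M) :
    h x y ≤ q * M := by
  rcases lt_or_ge 0 (ul (S.pr E)) with hE | hE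
  · rcases typ_or E with ht | hE'
    · have h3 := h_restL_typ E ht x y
      rw [h_zero (h1 _)] at h3
      rw [← h3]
      exact mul_nonneg hq0 hM
    · rw [h_split E hE hE' x y, h_zero (h1 hE), mul_zero, zero_add]
      have h3 := h2 _ hE'
      have h4 := ul_pr_le_one E
      calc _ ≤ (1 - ul (S.pr E)) * M := mul_le_mul_of_nonneg_left h3 (by linarith)
        _ ≤ q * M := mul_le_mul_of_nonneg_right (by linarith) hM
  · have ht : Typ (S := S) (fun _ _ => True) := Typ_true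
    have h3 := h2 (fun _ _ => True) (ul_pr_typ_pos _ ht)
    rw [h_restL_typ _ ht] at h3
    have h4 : 1 ≤ q := by linarith
    nlinarith

/-- **FREEk over a base which contains the line**: `t` is the time, `ζ = ∑ i, g i * t ^ i`; the time is uniform and free
given the coefficients, `ζ` is unsaturated given `Yt` (all digits of the time): the digits of level `σ` of the
coefficients are functions of the digits of level `σ` of `t` and `ζ`. -/
theorem free_aux (k : ℕ) (ρ : ℝ) (hρ : 0 < ρ) (hρ1 : ρ ≤ 1) : ∀ η : ℝ, 0 < η → ∃ ε : ℝ, 0 < ε ∧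
    ∀ (T : Sp) (t : TR T) (g : Fin (k + 1) → TR T) (ζ : TR T) (Yt : T.L) (σ : ℝ), 0 ≤ σ → σ ≤ 1 →
    TR.dg t σ ≤ Yt → TR.Te ζ (∑ i : Fin (k + 1), g i * t ^ (i : ℕ)) → σ - ε ≤ H (TR.dg t σ) →
    I (gd g σ) Yt ⊥ ≤ ε → DD Yt ζ σ ε ρ ε → h (gd g σ) (TR.dg t σ ⊔ TR.dg ζ σ) ≤ η := by
  intro η hη
  obtain ⟨C, hC, hmain⟩ := ssl_exact 0 k ρ hρ hρ1
  obtain ⟨c, hc⟩ : ∃ c : ℝ, c = (k : ℝ) + 1 := ⟨_, rfl⟩
  have hc1 : 1 ≤ c := by rw [hc]; linarith [Nat.cast_nonneg (α := ℝ) k]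
  obtain ⟨R, hR⟩ : ∃ R : ℝ, R = η / (2 * c) := ⟨_, rfl⟩
  have hR0 : 0 < R := by rw [hR]; positivity
  obtain ⟨p, hp⟩ : ∃ p : ℝ, p = R * η / (2 * c * C) := ⟨_, rfl⟩
  have hC0 : 0 < C := by linarith
  have hp0 : 0 < p := by rw [hp]; positivity
  obtain ⟨ε, he⟩ : ∃ ε : ℝ, ε = min (min (p * R / (2 * C)) p) (R / C) := ⟨_, rfl⟩
  have he0 : 0 < ε := by
    rw [he]
    exact lt_min (lt_min (by positivity) hp0) (by positivity)
  have he1 : ε ≤ p * R / (2 * C) := by rw [he]; exact (min_le_left _ _).trans (min_le_left _ _)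
  have he2 : ε ≤ p := by rw [he]; exact (min_le_left _ _).trans (min_le_right _ _)
  have he3 : ε ≤ R / C := by rw [he]; exact min_le_right _ _
  refine ⟨ε, he0, ?_⟩
  intro T t g ζ Yt σ hσ0 hσ1 hYt hζ hfull hI hD
  rcases le_or_gt σ R with hs | hs
  · -- few digits
    have h1 := h_gd_le g hσ0 (TR.dg t σ ⊔ TR.dg ζ σ) (by
      rw [gd_le]
      intro i
      rw [dg_nonpos _ le_rfl]
      exact _root_.bot_le)
    rw [sub_zero] at h1
    refine h1.trans ?_
    rw [← hc]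
    calc c * σ ≤ c * R := mul_le_mul_of_nonneg_left hs (by linarith)
      _ = η / 2 := by rw [hR]; field_simp
      _ ≤ η := by linarith
  obtain ⟨y, hy⟩ : ∃ y : T.VV (0 + 1), y = TR.vec (fun _ : Fin (0 + 1) => t) := ⟨_, rfl⟩
  have hyd : ∀ r, y.dg r = TR.dg t r := by
    intro r
    rw [hy]
    rfl
  have hyc : TR.cor y = fun _ : Fin (0 + 1) => t := by rw [hy]; rfl
  have hBl := bl_of_I y ((cv (gf g)).dg σ) Yt σ p ε hp0 (by rw [hyd]; exact hYt)
    (by rw [hyd, Nat.cast_add, Nat.cast_zero, zero_add, Nat.cast_one, one_mul]; exact hfull) (by rw [cv_gf]; exact hI)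
  obtain ⟨w, hw⟩ : ∃ w : T.VV 1, w = TR.vec (fun _ : Fin 1 => ζ) := ⟨_, rfl⟩
  have hwd : w.dg σ = TR.dg ζ σ := by rw [hw]; rfl
  obtain ⟨E, hE1, hE2⟩ := hmain T y ζ (gf g) Yt σ R p ε (2 * ε / p) hR0 hs.le hp0.le
    (by
      rw [mul_div_assoc', div_le_iff₀ hp0]
      have h1 : C * (2 * ε) ≤ C * (2 * (p * R / (2 * C))) :=
        mul_le_mul_of_nonneg_left (mul_le_mul_of_nonneg_left he1 (by norm_num)) hC0.le
      have h2 : C * (2 * (p * R / (2 * C))) = R * p := by field_simp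
      rw [h2] at h1
      exact h1)
    (by
      have h1 : C * ε ≤ C * (R / C) := mul_le_mul_of_nonneg_left he3 hC0.le
      rwa [mul_div_cancel₀ _ hC0.ne'] at h1)
    (by rw [hyd]; exact hYt)
    (by
      rw [hyc]
      have h1 := pe_gf g t
      rw [show (pe (gf g) fun _ : Fin (0 + 1) => t) = pe (gf g) (fun _ : Fin 1 => t) from rfl, h1]
      exact hζ.ag σ)
    hBl
    (fun T' π E' hE' hpE r s h3 h4 h5 => hD T' π E' hE' (he2.trans hpE) r s h3 h4 h5)
    (fun j ω => (y.cellv σ j ω, w.cellv σ j ω)) ((y.bdd σ).pair (w.bdd σ))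
    (Eventually.of_forall fun j ω ω' _ _ _ hV => by
      rw [Prod.mk.injEq] at hV
      refine ⟨y.cellv_close σ j ω ω' hV.1, ?_⟩
      have h1 := w.cellv_close σ j ω ω' hV.2 0
      rw [hw] at h1
      exact h1)
  have hio : Sp.io (S := T) (fun j ω => (y.cellv σ j ω, w.cellv σ j ω)) = TR.dg t σ ⊔ TR.dg ζ σ := by
    rw [← hyd, ← hwd]
    exact Sp.io_pair (y.bdd σ) (w.bdd σ)
  rw [cv_gf, hio] at hE2
  have hq : C * (σ / R) * p ≤ η / (2 * c) := by
    have h1 : C * (σ / R) * p ≤ C * (1 / R) * p := by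
      apply mul_le_mul_of_nonneg_right _ hp0.le
      exact mul_le_mul_of_nonneg_left (div_le_div_of_nonneg_right hσ1 hR0.le) hC0.le
    have h2 : C * (1 / R) * p = η / (2 * c) := by rw [hp]; field_simp
    rw [h2] at h1
    exact h1
  have hcore : h (gd g (σ - R)) (TR.dg t σ ⊔ TR.dg ζ σ) ≤ η / (2 * c) * c := by
    apply h_le_of_event E (by linarith) (by linarith) (by positivity)
    · intro hE
      have h3 := hE2 E hE (fun _ _ h => h)
      exact h3
    · intro F hF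
      rw [restL_gd]
      have h3 := h_gd_le (fun i => TR.rest F (g i)) (show (0 : ℝ) ≤ σ - R by linarith)
        (restL F hF (TR.dg t σ ⊔ TR.dg ζ σ)) (by
          rw [gd_le]
          intro i
          rw [dg_nonpos _ le_rfl]
          exact _root_.bot_le)
      refine h3.trans ?_
      rw [← hc]
      have h4 : c * (σ - R - 0) ≤ c * 1 := mul_le_mul_of_nonneg_left (by linarith) (by linarith)
      linarith
  have h4 := h_triangle (gd g σ) (gd g (σ - R)) (TR.dg t σ ⊔ TR.dg ζ σ)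
  have h5 := h_gd_le g (show σ - R ≤ σ by linarith) (gd g (σ - R) ⊔ (TR.dg t σ ⊔ TR.dg ζ σ)) le_sup_left
  rw [← hc] at h5
  have h6 : c * (σ - (σ - R)) = η / 2 := by
    have : σ - (σ - R) = R := by ring
    rw [this, hR]
    field_simp
  have h7 : η / (2 * c) * c = η / 2 := by field_simp
  rw [h6] at h5
  rw [h7] at hcore
  linarith

/-- **FREEk over a label with errors.** `Z` is the label (window `c`), `e` the depth; `L0` is (information contained in)
the base line, `τ` the time, `ζ = ∑ i, g i * τ ^ i`; `M0` is the base point. -/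
theorem free_nest (k : ℕ) (ρ : ℝ) (hρ : 0 < ρ) (hρ1 : ρ ≤ 1) : ∀ η : ℝ, 0 < η → ∃ ε : ℝ, 0 < ε ∧
    ∀ (S : Sp) (Z : ∀ k, Setoid (S.F k).Ω) (e : ℝ) (he : 0 < e) (τ : TR S) (g : Fin (k + 1) → TR S) (ζ : TR S)
    (L0 M0 : S.L) (σ : ℝ), 0 ≤ σ → σ ≤ 1 → TR.Te ζ (∑ i : Fin (k + 1), g i * τ ^ (i : ℕ)) →
    chgL Z e he M0 ≤ chgL Z e he (L0 ⊔ TR.dg τ (e * 1)) →
    1 - ε ≤ h (chgL Z e he (TR.dg τ (e * 1))) (chgL Z e he (L0 ⊔ gd g (e * σ))) →
    (∀ (T : Sp) (p : Pj T (S.chg Z e he)) (E : ∀ k, (T.F k).Ω → Prop) (hE : 0 < ul (T.pr E)), ε ≤ ul (T.pr E) →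
      ∀ a b : ℝ, 0 ≤ a → a ≤ b → b ≤ σ →
      h (restL E hE (p.map (chgL Z e he (TR.dg ζ (e * b)))))
        (restL E hE (p.map (chgL Z e he (TR.dg ζ (e * a) ⊔ M0)))) ≤ (1 - ρ) * (b - a) + ε) →
    h (chgL Z e he (gd g (e * σ))) (chgL Z e he (L0 ⊔ TR.dg τ (e * σ) ⊔ TR.dg ζ (e * σ))) ≤ η := by
  intro η hη
  obtain ⟨ε, hε, hmain⟩ := free_aux k ρ hρ hρ1 η hη
  refine ⟨ε, hε, ?_⟩
  intro S Z e he τ g ζ L0 M0 σ hσ0 hσ1 hζ hM ht hD
  induction L0 using Sp.cl_ind with | h A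
  obtain ⟨Z', hZ'⟩ : ∃ Z', Z' = infZ Z A := ⟨_, rfl⟩
  have hZ : Fin2 Z Z' := by rw [hZ']; exact Fin2_infZ Z A
  have hh : ∀ x y : S.L, h (chgL Z' e he x) (chgL Z' e he y) = h (chgL Z e he x) (chgL Z e he (y ⊔ cl A)) := by
    intro x y
    rw [hZ']
    exact h_infZ Z A he x y
  have hH : ∀ x : S.L, H (chgL Z' e he x) = h (chgL Z e he x) (chgL Z e he (cl A)) := by
    intro x
    rw [hZ']
    exact H_infZ Z A he x
  have hMle : chgL Z' e he M0 ≤ chgL Z' e he (TR.dg τ (e * 1)) := by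
    rw [hZ']
    apply infZ_le
    rw [sup_comm]
    exact hM
  have hgd : gd (fun i => trc Z' e he (g i)) σ = chgL Z' e he (gd g (e * σ)) := gd_trc Z' e he g σ
  have hH1 : H (chgL Z' e he (TR.dg τ (e * 1))) ≤ 1 := by
    rw [← trc_dg]
    have h1 := VV.H_dg_le (TR.vec (fun _ : Fin 1 => trc Z' e he τ)) zero_le_one
    rw [Nat.cast_one, one_mul] at h1
    exact h1
  have key := hmain (S.chg Z' e he) (trc Z' e he τ) (fun i => trc Z' e he (g i)) (trc Z' e he ζ)
    (chgL Z' e he (TR.dg τ (e * 1))) σ hσ0 hσ1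
    (by
      rw [trc_dg]
      exact chgL_mono _ _ _ (TR.dg_mono _ (mul_le_mul_of_nonneg_left hσ1 he.le)))
    (by
      have h1 := te_trc Z' e he hζ
      rw [map_sum] at h1
      simp only [map_mul, map_pow] at h1
      exact h1)
    (by
      rw [trc_dg, hH]
      have h1 : 1 - ε ≤ h (chgL Z e he (TR.dg τ (e * 1))) (chgL Z e he (cl A)) :=
        ht.trans (h_anti (chgL_mono _ _ _ le_sup_left))
      have h2 := h_triangle (chgL Z e he (TR.dg τ (e * 1))) (chgL Z e he (TR.dg τ (e * σ))) (chgL Z e he (cl A))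
      have h3 : h (chgL Z e he (TR.dg τ (e * 1))) (chgL Z e he (TR.dg τ (e * σ)) ⊔ chgL Z e he (cl A)) ≤ 1 - σ := by
        refine (h_anti le_sup_left).trans ?_
        rw [← trc_dg, ← trc_dg]
        have h4 := VV.h_dg_dg (TR.vec (fun _ : Fin 1 => trc Z e he τ)) hσ1
        rw [Nat.cast_one, one_mul] at h4
        exact h4
      linarith)
    (by
      rw [hgd, I_eq', h_bot, sup_bot_eq, hh]
      have h1 : 1 - ε ≤ h (chgL Z e he (TR.dg τ (e * 1))) (chgL Z e he (gd g (e * σ) ⊔ cl A)) := by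
        rw [sup_comm (gd g (e * σ))]
        exact ht
      linarith)
    (by
      intro T π E hE hεE r s h0r hrs hsσ
      have h1 := h_unF π hZ E hE (TR.dg ζ (e * s)) (TR.dg ζ (e * r) ⊔ M0)
      have h2 := hD (unF Z π) (unP Z π) E hE hεE r s h0r hrs hsσ
      rw [trc_dg, trc_dg]
      refine le_trans (h_anti ?_) (h1.trans h2)
      rw [chgL_sup, π.map_sup, restL_sup, sup_comm]
      exact sup_le_sup_right (restL_mono E hE (π.map_mono hMle)) _)
  rw [hgd, trc_dg, trc_dg, ← chgL_sup, hh] at key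
  refine le_trans (le_of_eq ?_) key
  congr 2
  rw [sup_comm (TR.dg τ (e * σ) ⊔ TR.dg ζ (e * σ)), sup_assoc]

end

end Pool.Agent.Helper47.T4
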