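import Pool.Agent.Helper47.T4.Core
import Pool.Agent.Helper47.T4.Free

/-!
# Corners over nested labels

`ND S d k`: a space `S` with two labels, `Z` (window `c`) and a finer one `Z'` (window `c + s e`), the time `τ` and the
top coordinate `ζ = ∑ i, g i * τ ^ i` of the window `c`; `τ0` is the literal centre of the time in the cell of `Z'`.
`ND.cd` is the corner over `Z'` with the depth `e n`. Facts over `Z` pass to `Z'` (`h_nest_le`, `ND.fr_of`).
-/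

set_option autoImplicit false

namespace Pool.Agent.Helper47.T4

open Finset Filter Topology Pool.Agent.Helper69.RK Pool.Agent.Helper31.EC Pool.Agent.Helper31.EC.Sp
open Pool.Agent.Helper40.NSK Pool.Agent.Helper99.EC Pool.Agent.Helper99.CC Pool.Agent.Helper99.LF
open Pool.Agent.Helper60.CS

noncomputable section

/-- data of a corner over nested labels -/
structure ND (S : Sp) (d k : ℕ) where
  Z : ∀ k, Setoid (S.F k).Ω
  Z' : ∀ k, Setoid (S.F k).Ω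
  hZ : Fin2 Z Z'
  e : ℝ
  he : 0 < e
  s : ℝ
  σ : ℝ
  v : ℝ
  hs : 0 ≤ s
  hσ : 0 ≤ σ
  hv : 0 ≤ v
  hvs : v ≤ s
  h1 : σ + v ≤ 1
  /-- the time of the window `c` -/
  τ : TR S
  /-- its centre in the cell of the window `c + s e` -/
  τ0 : TR S
  hτ0 : ∀ᶠ k in UF, ∀ ω ω', (S.F k).μ ω ≠ 0 → (S.F k).μ ω' ≠ 0 → (Z' k ⊓ (S.F k).Z) ω ω' → τ0.1 k ω = τ0.1 k ω'
  K : ℕ → ℝ
  hK : S.Sub K
  hτ : Typ (S := S) (fun k ω => |τ.1 k ω - τ0.1 k ω| ≤ K k * S.dl (e * s) k)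
  g : Fin (k + 1) → TR S
  /-- the top coordinate of the window `c` -/
  ζ : TR S
  hζ : TR.Te ζ (∑ i : Fin (k + 1), g i * τ ^ (i : ℕ))
  /-- the base line in the coordinates of the corner -/
  a : Fin d → TR (S.chg Z' e he)
  x : Fin d → TR (S.chg Z' e he)

namespace ND

variable {S : Sp} {d k : ℕ} (D : ND S d k)

/-- the space of the corner -/
abbrev U : Sp := S.chg D.Z' D.e D.he

/-- the time of the corner -/
def t : TR D.U := zo D.Z' D.e D.he D.τ D.τ0.1 (D.e * D.s) D.K D.hK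

/-- the corner -/
def cd : CD D.U d k where
  t := D.t
  a := D.a
  x := D.x
  g := fun i => trc D.Z' D.e D.he (D.g i)
  τ := trc D.Z' D.e D.he D.τ0
  s := D.s
  σ := D.σ
  v := D.v
  hs := D.hs
  hσ := D.hσ
  hv := D.hv
  hvs := D.hvs
  h1 := D.h1
  hτ := trc_dg_bot D.he D.hτ0

theorem te_τ : TR.Te (trc D.Z' D.e D.he D.τ) (D.cd.τ + cs D.U D.s * D.t) := by
  have h1 := zo_typ D.Z' D.e D.he D.hK D.hτ
  refine ⟨_, typ_chg D.Z' D.e D.he h1, Eventually.of_forall fun k ω _ h => ?_⟩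
  rw [TR.ev_add, TR.ev_mul, cs_ev D.hs, chg_dl]
  exact h

/-- the top coordinate -/
theorem te_ζ : TR.Te (trc D.Z' D.e D.he D.ζ) D.cd.ζ := by
  have h1 := te_trc D.Z' D.e D.he D.hζ
  refine h1.trans ?_
  rw [map_sum]
  unfold CD.ζ
  apply TR.Te.sum
  intro i _
  rw [map_mul, map_pow]
  exact (TR.Te.refl _).mul (te_pow D.te_τ _)

theorem ζ_dg (u : ℝ) : TR.dg D.cd.ζ u = chgL D.Z' D.e D.he (TR.dg D.ζ (D.e * u)) := by
  rw [← D.te_ζ.dg_eq, trc_dg]

theorem t_dg (u : ℝ) : TR.dg D.cd.t u = chgL D.Z' D.e D.he (TR.dg D.τ (D.e * (D.s + u))) := by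
  have h1 := zo_dg D.Z' D.e D.he D.hK D.hτ D.hτ0 u
  have e1 : D.e * D.s + D.e * u = D.e * (D.s + u) := by ring
  rw [e1] at h1
  exact h1

theorem g_dg (u : ℝ) : gd D.cd.g u = chgL D.Z' D.e D.he (gd D.g (D.e * u)) := gd_trc D.Z' D.e D.he D.g u

/-- the top coordinate of the corner is the scaled top coordinate of the window `c` -/
theorem z_te : TR.Te D.cd.tr.z (cs D.U (1 - D.σ - D.v) * trc D.Z' D.e D.he D.ζ) := by
  rw [D.cd.tr_z]
  exact (TR.Te.refl _).mul D.te_ζ.symm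

/-- digits of the top coordinate of the corner -/
theorem z_dg {u : ℝ} (hu : u ≤ 1) :
    QS.dg (fc D.cd.tr).z u = chgL D.Z' D.e D.he (TR.dg D.ζ (D.e * (u - (1 - D.σ - D.v)))) := by
  rw [D.cd.z_dg hu, D.ζ_dg]
  rfl

/-- (i) OVER THE WINDOW `c` GIVES (i) OVER THE WINDOW `c + s e` -/
theorem fr_of {ε : ℝ} (L0 : S.L) (h0 : chgL D.Z' D.e D.he L0 ≤ (fc D.cd.tr).iL)
    (h : Pool.Agent.Helper31.EC.h (chgL D.Z D.e D.he (gd D.g (D.e * D.σ)))
      (chgL D.Z D.e D.he (L0 ⊔ TR.dg D.τ (D.e * D.σ) ⊔ TR.dg D.ζ (D.e * D.σ))) ≤ ε) :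
    Pool.Agent.Helper31.EC.h (gd D.cd.g D.cd.σ) ((fc D.cd.tr).iL ⊔ TR.dg D.cd.t 1 ⊔ TR.dg D.cd.ζ D.cd.σ) ≤ ε := by
  have h1 := h_nest_le D.hZ D.he (gd D.g (D.e * D.σ)) (L0 ⊔ TR.dg D.τ (D.e * D.σ) ⊔ TR.dg D.ζ (D.e * D.σ))
  have e1 : gd D.cd.g D.cd.σ = chgL D.Z' D.e D.he (gd D.g (D.e * D.σ)) := D.g_dg D.σ
  have e2 : TR.dg D.cd.ζ D.cd.σ = chgL D.Z' D.e D.he (TR.dg D.ζ (D.e * D.σ)) := D.ζ_dg D.σ
  rw [e1, e2]
  refine le_trans (h_anti ?_) (h1.trans h)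
  rw [chgL_sup, chgL_sup]
  refine sup_le_sup (sup_le_sup h0 ?_) le_rfl
  rw [D.t_dg]
  apply chgL_mono
  apply TR.dg_mono
  apply mul_le_mul_of_nonneg_left _ D.he.le
  linarith [D.h1, D.hv, D.hs]

/-- **CORNER OVER NESTED LABELS** from (i) over the window `c` and the other facts over the window `c + s e` -/
theorem cte_of {N : ℕ} {ρ ε : ℝ} (L0 : S.L) (h0 : chgL D.Z' D.e D.he L0 ≤ (fc D.cd.tr).iL)
    (fr : Pool.Agent.Helper31.EC.h (chgL D.Z D.e D.he (gd D.g (D.e * D.σ)))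
      (chgL D.Z D.e D.he (L0 ⊔ TR.dg D.τ (D.e * D.σ) ⊔ TR.dg D.ζ (D.e * D.σ))) ≤ ε)
    (ht : 1 - ε ≤ Pool.Agent.Helper31.EC.h (chgL D.Z' D.e D.he (TR.dg D.τ (D.e * (D.s + 1))))
      ((fc D.cd.tr).iL ⊔ chgL D.Z' D.e D.he (gd D.g (D.e * (D.σ + D.v)))))
    (kn : Pool.Agent.Helper31.EC.h (chgL D.Z' D.e D.he (TR.dg D.ζ (D.e * D.σ))) (fc D.cd.tr).iQ ≤ ε)
    (hi : I (fc D.cd.tr).iX (QS.vd (fc D.cd.tr).y 1 ⊔ chgL D.Z' D.e D.he (TR.dg D.ζ (D.e * (D.σ + D.v))))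
      (chgL D.Z' D.e D.he (TR.dg D.τ (D.e * (D.s + 1)))) ≤ ε)
    (hy : d - ε ≤ Pool.Agent.Helper31.EC.h (QS.vd (fc D.cd.tr).y 1)
      (chgL D.Z' D.e D.he (TR.dg D.τ (D.e * (D.s + 1)))))
    (un : ∀ (T : Sp) (p : Pj T D.U) (E : ∀ k, (T.F k).Ω → Prop) (hE : 0 < ul (T.pr E)), ε ≤ ul (T.pr E) →
      ∀ a b : ℝ, D.σ ≤ a → a ≤ b → b ≤ D.σ + D.v →
      Pool.Agent.Helper31.EC.h (restL E hE (p.map (chgL D.Z' D.e D.he (TR.dg D.ζ (D.e * b)))))
        (restL E hE (p.map (chgL D.Z' D.e D.he (TR.dg D.ζ (D.e * a)) ⊔ (fc D.cd.tr).iQ))) ≤ (1 - ρ) * (b - a) + ε)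
    (st : ∃ w : QS.CQ D.U (fc D.cd.tr).fB N, ∀ e : Fin (d + 1) → Fin (N + 1), Function.Injective e →
      Big (Matrix.of fun i j => (w.p (e i)).qs ((fc D.cd.tr).v j)).det ε) : CTe D.cd N ρ ε where
  ht := by
    rw [D.t_dg]
    have e1 : gd D.cd.g (D.cd.σ + D.cd.v) = chgL D.Z' D.e D.he (gd D.g (D.e * (D.σ + D.v))) := D.g_dg (D.σ + D.v)
    rw [e1]
    exact ht
  fr := D.fr_of L0 h0 fr
  kn := by
    have e2 : TR.dg D.cd.ζ D.cd.σ = chgL D.Z' D.e D.he (TR.dg D.ζ (D.e * D.σ)) := D.ζ_dg D.σ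
    rw [e2]
    exact kn
  hi := by
    rw [D.t_dg]
    have e2 : TR.dg D.cd.ζ (D.cd.σ + D.cd.v) = chgL D.Z' D.e D.he (TR.dg D.ζ (D.e * (D.σ + D.v))) :=
      D.ζ_dg (D.σ + D.v)
    rw [e2]
    exact hi
  hy := by
    rw [D.t_dg]
    exact hy
  un := by
    intro T p E hE hEε a b ha hab hb
    rw [D.ζ_dg, D.ζ_dg]
    exact un T p E hE hEε a b ha hab hb
  st := st

/-- the information facts of a corner over nested labels, up to `ε`. `L0` (line) and `M0` (base point) are informations of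
the window `c` with digits of level at most `1` in the unit `e n`; `D`-facts over `Z` are facts of the window `c`,
facts over `Z'` are facts of the window `c + s e`. -/
structure Fct (N : ℕ) (ρ ε : ℝ) (L0 M0 : S.L) : Prop where
  /-- the line of the window `c` is known from the line of the corner -/
  hL : chgL D.Z' D.e D.he L0 ≤ (fc D.cd.tr).iL
  /-- the base point of the window `c` is known from the base point of the corner -/
  hM : chgL D.Z' D.e D.he M0 ≤ (fc D.cd.tr).iQ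
  /-- the base point is known from the line and the time -/
  hLM : chgL D.Z D.e D.he M0 ≤ chgL D.Z D.e D.he (L0 ⊔ TR.dg D.τ (D.e * 1))
  /-- window `c`: the time is uniform given the line and the coefficients -/
  tm : 1 - ε ≤ Pool.Agent.Helper31.EC.h (chgL D.Z D.e D.he (TR.dg D.τ (D.e * 1)))
    (chgL D.Z D.e D.he (L0 ⊔ gd D.g (D.e * D.σ)))
  /-- window `c`: the top coordinate is unsaturated given the base point on the levels up to `σ + v` -/
  un : ∀ (T : Sp) (p : Pj T (S.chg D.Z D.e D.he)) (E : ∀ k, (T.F k).Ω → Prop) (hE : 0 < ul (T.pr E)),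
    ε ≤ ul (T.pr E) → ∀ a b : ℝ, 0 ≤ a → a ≤ b → b ≤ D.σ + D.v →
    Pool.Agent.Helper31.EC.h (restL E hE (p.map (chgL D.Z D.e D.he (TR.dg D.ζ (D.e * b)))))
      (restL E hE (p.map (chgL D.Z D.e D.he (TR.dg D.ζ (D.e * a) ⊔ M0)))) ≤ (1 - ρ) * (b - a) + ε
  /-- window `c + s e`: the time is uniform given the line and the coefficients -/
  ht : 1 - ε ≤ Pool.Agent.Helper31.EC.h (chgL D.Z' D.e D.he (TR.dg D.τ (D.e * (D.s + 1))))
    ((fc D.cd.tr).iL ⊔ chgL D.Z' D.e D.he (gd D.g (D.e * (D.σ + D.v))))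
  /-- window `c + s e`: hull, the first digits of the top coordinate are known from the base point -/
  kn : Pool.Agent.Helper31.EC.h (chgL D.Z' D.e D.he (TR.dg D.ζ (D.e * D.σ))) (fc D.cd.tr).iQ ≤ ε
  /-- window `c + s e`: the direction is independent of the point -/
  hi : I (fc D.cd.tr).iX (QS.vd (fc D.cd.tr).y 1 ⊔ chgL D.Z' D.e D.he (TR.dg D.ζ (D.e * (D.σ + D.v))))
    (chgL D.Z' D.e D.he (TR.dg D.τ (D.e * (D.s + 1)))) ≤ ε
  /-- window `c + s e`: the base point is full -/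
  hy : d - ε ≤ Pool.Agent.Helper31.EC.h (QS.vd (fc D.cd.tr).y 1)
    (chgL D.Z' D.e D.he (TR.dg D.τ (D.e * (D.s + 1))))
  /-- window `c + s e`: copies span -/
  st : ∃ w : QS.CQ D.U (fc D.cd.tr).fB N, ∀ e : Fin (d + 1) → Fin (N + 1), Function.Injective e →
    Big (Matrix.of fun i j => (w.p (e i)).qs ((fc D.cd.tr).v j)).det ε

end ND

/-- **CORNER OVER NESTED LABELS**: the facts `ND.Fct` with a small error give a flat corner with the error `η` -/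
theorem corner (k : ℕ) (ρ : ℝ) (hρ : 0 < ρ) (hρ1 : ρ ≤ 1) : ∀ η : ℝ, 0 < η → ∃ ε : ℝ, 0 < ε ∧
    ∀ (S : Sp) (d N : ℕ) (D : ND S d k) (L0 M0 : S.L), D.Fct N ρ ε L0 M0 → CorH (fc D.cd.tr) N ρ η := by
  intro η hη
  obtain ⟨ε1, h1⟩ : ∃ ε1 : ℝ, ε1 = min (η / 3) (η ^ 2 / 2) := ⟨_, rfl⟩
  have h10 : 0 < ε1 := by rw [h1]; exact lt_min (by positivity) (by positivity)
  have h11 : ε1 ≤ η / 3 := by rw [h1]; exact min_le_left _ _
  have h12 : ε1 ≤ η ^ 2 / 2 := by rw [h1]; exact min_le_right _ _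
  obtain ⟨ε0, h00, hfree⟩ := free_nest k ρ hρ hρ1 ε1 h10
  refine ⟨min ε0 ε1, lt_min h00 h10, ?_⟩
  intro S d N D L0 M0 F
  have m0 : min ε0 ε1 ≤ ε0 := min_le_left _ _
  have m1 : min ε0 ε1 ≤ ε1 := min_le_right _ _
  have hfr := hfree S D.Z D.e D.he D.τ D.g D.ζ L0 M0 D.σ D.hσ (by linarith [D.h1, D.hv]) D.hζ F.hLM
    (by linarith [F.tm])
    (fun T p E hE hEε a b h0a hab hb => by
      have h2 := F.un T p E hE (m0.trans hEε) a b h0a hab (by linarith [D.hv])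
      linarith)
  have hc : CTe D.cd N ρ ε1 := by
    refine D.cte_of L0 F.hL hfr (by linarith [F.ht]) (by linarith [F.kn]) (by linarith [F.hi]) (by linarith [F.hy])
      ?_ ?_
    · intro T p E hE hEε a b ha hab hb
      have h2 := F.un (unF D.Z p) (unP D.Z p) E hE (m1.trans hEε) a b (D.hσ.trans ha) hab hb
      have h3 := h_unF p D.hZ E hE (TR.dg D.ζ (D.e * b)) (TR.dg D.ζ (D.e * a) ⊔ M0)
      have h4 : Pool.Agent.Helper31.EC.h (restL E hE (p.map (chgL D.Z' D.e D.he (TR.dg D.ζ (D.e * b)))))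
          (restL E hE (p.map (chgL D.Z' D.e D.he (TR.dg D.ζ (D.e * a)) ⊔ (fc D.cd.tr).iQ))) ≤
          Pool.Agent.Helper31.EC.h (restL E hE (p.map (chgL D.Z' D.e D.he (TR.dg D.ζ (D.e * b)))))
          (restL E hE (p.map (chgL D.Z' D.e D.he (TR.dg D.ζ (D.e * a) ⊔ M0)))) := by
        apply h_anti
        apply restL_mono
        apply p.map_mono
        rw [chgL_sup]
        exact sup_le_sup_left F.hM _
      linarith
    · obtain ⟨w, hw⟩ := F.st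
      refine ⟨w, fun e he δ hδ => ?_⟩
      have := hw e he δ (by linarith)
      linarith
  exact hc.corH hρ1 hη (by linarith) h12

/-- **CORNER OVER NESTED LABELS**, exact form -/
theorem corner0 (k : ℕ) (ρ : ℝ) (hρ : 0 < ρ) (hρ1 : ρ ≤ 1) (S : Sp) (d N : ℕ) (D : ND S d k) (L0 M0 : S.L)
    (F : D.Fct N ρ 0 L0 M0) : CorH (fc D.cd.tr) N ρ 0 := by
  have hfr : h (chgL D.Z D.e D.he (gd D.g (D.e * D.σ)))
      (chgL D.Z D.e D.he (L0 ⊔ TR.dg D.τ (D.e * D.σ) ⊔ TR.dg D.ζ (D.e * D.σ))) ≤ 0 := by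
    apply le_of_forall_pos_le_add
    intro η hη
    obtain ⟨ε0, h00, hfree⟩ := free_nest k ρ hρ hρ1 η hη
    rw [zero_add]
    exact hfree S D.Z D.e D.he D.τ D.g D.ζ L0 M0 D.σ D.hσ (by linarith [D.h1, D.hv]) D.hζ F.hLM
      (by linarith [F.tm])
      (fun T p E hE hEε a b h0a hab hb => by
        have h2 := F.un T p E hE hE.le a b h0a hab (by linarith [D.hv])
        linarith)
  have hc : CTe D.cd N ρ 0 := by
    refine D.cte_of L0 F.hL hfr F.ht F.kn F.hi F.hy ?_ F.st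
    intro T p E hE hEε a b ha hab hb
    have h2 := F.un (unF D.Z p) (unP D.Z p) E hE hE.le a b (D.hσ.trans ha) hab hb
    have h3 := h_unF p D.hZ E hE (TR.dg D.ζ (D.e * b)) (TR.dg D.ζ (D.e * a) ⊔ M0)
    have h4 : h (restL E hE (p.map (chgL D.Z' D.e D.he (TR.dg D.ζ (D.e * b)))))
        (restL E hE (p.map (chgL D.Z' D.e D.he (TR.dg D.ζ (D.e * a)) ⊔ (fc D.cd.tr).iQ))) ≤
        h (restL E hE (p.map (chgL D.Z' D.e D.he (TR.dg D.ζ (D.e * b)))))
        (restL E hE (p.map (chgL D.Z' D.e D.he (TR.dg D.ζ (D.e * a) ⊔ M0)))) := by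
      apply h_anti
      apply restL_mono
      apply p.map_mono
      rw [chgL_sup]
      exact sup_le_sup_left F.hM _
    linarith
  exact hc.corH0 hρ1

/-- the trivial label: conditional entropies -/
theorem h_tr_eq {S : Sp} {e : ℝ} (he : 0 < e) (x y : S.L) :
    h (chgL S.tr e he x) (chgL S.tr e he y) = h x y / e := by
  induction x using Sp.cl_ind with | h X
  induction y using Sp.cl_ind with | h Y
  rw [chgL_cl, chgL_cl, h_cl, h_cl]
  have key : (S.chg S.tr e he).rt (chgI S.tr e he X).1 (chgI S.tr e he Y).1 = fun k => e⁻¹ * S.rt X.1 Y.1 k := by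
    funext k
    have h2 : (S.chg S.tr e he).rt (chgI S.tr e he X).1 (chgI S.tr e he Y).1 k =
        S.rt X.1 (fun k => Y.1 k ⊓ S.tr k) k / e := chg_rt S.tr e he X.1 Y.1 k
    have h3 : (fun k => Y.1 k ⊓ S.tr k) = Y.1 := by
      funext k
      exact inf_top_eq _
    rw [h2, h3, div_eq_inv_mul]
  rw [key, ul_const_mul _ (UB_rt _ _), div_eq_inv_mul]

end

end Pool.Agent.Helper47.T4
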