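import Pool.Agent.Helper31.EC.Uns

/-!
# Constants and scaled functions in the exact entropy calculus

`cs S r` is the constant function `2 ^ (-r n)`, `r ≥ 0`. Digits of `cs S r * f` of level `u` are digits of `f` of level
`u - r`. Digits of negative levels are trivial. Recentring of a polynomial.
-/

set_option autoImplicit false

namespace Pool.Agent.Helper47.T4

open Finset Filter Topology Pool.Agent.Helper69.RK Pool.Agent.Helper31.EC Pool.Agent.Helper31.EC.Sp

noncomputable section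

variable {S : Sp}

variable (S) in
/-- the constant function `2 ^ (-r n)` -/
def cs (r : ℝ) : TR S := ⟨fun k _ => S.dl (max r 0) k, by
  refine ⟨fun _ => 1, S.Sub_const zero_le_one, Eventually.of_forall fun k ω _ => ?_⟩
  show |S.dl (max r 0) k| ≤ 1
  rw [abs_of_pos (S.dl_pos _ k)]
  have h1 := S.dl_anti (le_max_right r 0) k
  rw [S.dl_zero] at h1
  exact h1⟩

theorem cs_ev {r : ℝ} (hr : 0 ≤ r) (k : ℕ) (ω : (S.F k).Ω) : TR.ev (cs S r) k ω = S.dl r k := by
  show S.dl (max r 0) k = _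
  rw [max_eq_left hr]

theorem cs_zero : cs S 0 = 1 := by
  apply Subtype.ext
  funext k ω
  show S.dl (max 0 0) k = 1
  rw [max_self, S.dl_zero]

theorem cs_mul {r s : ℝ} (hr : 0 ≤ r) (hs : 0 ≤ s) : cs S r * cs S s = cs S (r + s) := by
  apply Subtype.ext
  funext k ω
  show S.dl (max r 0) k * S.dl (max s 0) k = S.dl (max (r + s) 0) k
  rw [max_eq_left hr, max_eq_left hs, max_eq_left (add_nonneg hr hs), ← dl_add]

theorem cs_pow {r : ℝ} (hr : 0 ≤ r) (j : ℕ) : cs S r ^ j = cs S ((j : ℝ) * r) := by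
  induction j with
  | zero => rw [pow_zero, Nat.cast_zero, zero_mul, cs_zero]
  | succ j ih =>
    rw [pow_succ, ih, cs_mul (mul_nonneg (Nat.cast_nonneg j) hr) hr]
    congr 1
    push_cast
    ring

/-- DIGITS OF A SCALED FUNCTION -/
theorem cs_dg {r : ℝ} (hr : 0 ≤ r) (f : TR S) (u : ℝ) : TR.dg (cs S r * f) u = TR.dg f (u - r) := by
  have key : ∀ k (ω ω' : (S.F k).Ω), TR.ev (cs S r * f) k ω - TR.ev (cs S r * f) k ω' =
      S.dl r k * (TR.ev f k ω - TR.ev f k ω') := by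
    intro k ω ω'
    rw [TR.ev_mul, TR.ev_mul, cs_ev hr, cs_ev hr]
    ring
  have hd : ∀ k, S.dl u k = S.dl r k * S.dl (u - r) k := by
    intro k
    rw [← dl_add]
    congr 1
    ring
  apply le_antisymm
  · apply VV.dg_le_dg _ _ _ _ (fun _ _ => True) Typ_true (fun _ => 1) (S.Sub_const zero_le_one)
    refine Eventually.of_forall fun k ω ω' _ _ _ _ _ h i => ?_
    have h1 : |TR.ev f k ω - TR.ev f k ω'| ≤ S.dl (u - r) k := h 0
    show |TR.ev (cs S r * f) k ω - TR.ev (cs S r * f) k ω'| ≤ 1 * S.dl u k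
    rw [key, abs_mul, abs_of_pos (S.dl_pos r k), one_mul, hd]
    exact mul_le_mul_of_nonneg_left h1 (S.dl_pos r k).le
  · apply VV.dg_le_dg _ _ _ _ (fun _ _ => True) Typ_true (fun _ => 1) (S.Sub_const zero_le_one)
    refine Eventually.of_forall fun k ω ω' _ _ _ _ _ h i => ?_
    have h1 : |TR.ev (cs S r * f) k ω - TR.ev (cs S r * f) k ω'| ≤ S.dl u k := h 0
    show |TR.ev f k ω - TR.ev f k ω'| ≤ 1 * S.dl (u - r) k
    rw [key, abs_mul, abs_of_pos (S.dl_pos r k), hd] at h1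
    rw [one_mul]
    exact le_of_mul_le_mul_left h1 (S.dl_pos r k)

/-- digits of nonpositive levels are trivial -/
theorem dg_nonpos (f : TR S) {u : ℝ} (hu : u ≤ 0) : TR.dg f u = ⊥ := by
  apply le_antisymm _ _root_.bot_le
  refine (TR.dg_mono f hu).trans ?_
  have h1 := VV.H_dg_le (TR.vec (fun _ : Fin 1 => f)) (le_refl (0 : ℝ))
  rw [mul_zero] at h1
  have h2 : H (TR.dg f 0) = 0 := le_antisymm h1 (H_nonneg _)
  rw [← h_bot] at h2
  exact h_eq_zero_iff.mp h2

/-! ### recentring -/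

/-- the coefficients of a polynomial at the centre `τ` -/
def rcf {A : Type*} [CommRing A] {k : ℕ} (g : Fin (k + 1) → A) (τ : A) (j : Fin (k + 1)) : A :=
  ∑ i : Fin (k + 1), ((i : ℕ).choose j : A) * (g i * τ ^ ((i : ℕ) - j))

theorem rcf_sum {A : Type*} [CommRing A] {k : ℕ} (g : Fin (k + 1) → A) (τ h : A) :
    ∑ j : Fin (k + 1), rcf g τ j * h ^ (j : ℕ) = ∑ i : Fin (k + 1), g i * (τ + h) ^ (i : ℕ) := by
  unfold rcf
  have h1 : ∀ j : Fin (k + 1), (∑ i : Fin (k + 1), ((i : ℕ).choose j : A) * (g i * τ ^ ((i : ℕ) - j))) * h ^ (j : ℕ) =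
      ∑ i : Fin (k + 1), g i * (h ^ (j : ℕ) * τ ^ ((i : ℕ) - j) * ((i : ℕ).choose j : A)) := by
    intro j
    rw [Finset.sum_mul]
    apply Finset.sum_congr rfl
    intro i _
    ring
  rw [Finset.sum_congr rfl fun j _ => h1 j, Finset.sum_comm]
  apply Finset.sum_congr rfl
  intro i _
  rw [← Finset.mul_sum]
  congr 1
  rw [Fin.sum_univ_eq_sum_range (fun j => h ^ j * τ ^ ((i : ℕ) - j) * ((i : ℕ).choose j : A)) (k + 1), add_comm τ h,
    add_pow]
  symm
  apply Finset.sum_subset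
  · intro m hm
    rw [Finset.mem_range] at hm ⊢
    have := i.2
    omega
  · intro m _ hm
    rw [Finset.mem_range] at hm
    have h2 : (i : ℕ).choose m = 0 := Nat.choose_eq_zero_of_lt (by omega)
    rw [h2, Nat.cast_zero, mul_zero]

theorem rcf_map {A B : Type*} [CommRing A] [CommRing B] (φ : A →+* B) {k : ℕ} (g : Fin (k + 1) → A) (τ : A)
    (j : Fin (k + 1)) : φ (rcf g τ j) = rcf (fun i => φ (g i)) (φ τ) j := by
  unfold rcf
  rw [map_sum]
  apply Finset.sum_congr rfl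
  intro i _
  rw [map_mul, map_mul, map_pow, map_natCast]

theorem rcf_mem {A : Type*} [CommRing A] (R : Subring A) {k : ℕ} {g : Fin (k + 1) → A} {τ : A} (hg : ∀ i, g i ∈ R)
    (hτ : τ ∈ R) (j : Fin (k + 1)) : rcf g τ j ∈ R := by
  unfold rcf
  apply sum_mem
  intro i _
  exact mul_mem (natCast_mem R _) (mul_mem (hg i) (pow_mem hτ _))

/-- the digits of the coefficients -/
def gd {k : ℕ} (g : Fin (k + 1) → TR S) (u : ℝ) : S.L := Finset.univ.sup fun i => TR.dg (g i) u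

theorem dg_le_gd {k : ℕ} (g : Fin (k + 1) → TR S) (u : ℝ) (i : Fin (k + 1)) : TR.dg (g i) u ≤ gd g u :=
  Finset.le_sup (f := fun i => TR.dg (g i) u) (Finset.mem_univ i)

theorem gd_le {k : ℕ} {g : Fin (k + 1) → TR S} {u : ℝ} {A : S.L} : gd g u ≤ A ↔ ∀ i, TR.dg (g i) u ≤ A := by
  unfold gd
  rw [Finset.sup_le_iff]
  exact ⟨fun h i => h i (Finset.mem_univ i), fun h i _ => h i⟩

theorem gd_mono {k : ℕ} (g : Fin (k + 1) → TR S) {u v : ℝ} (h : u ≤ v) : gd g u ≤ gd g v :=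
  gd_le.mpr fun i => (TR.dg_mono (g i) h).trans (dg_le_gd g v i)

/-- digits of the coefficients at a centre which is known -/
theorem rcf_dg {k : ℕ} (g : Fin (k + 1) → TR S) {τ : TR S} (hτ : ∀ u, TR.dg τ u = ⊥) (j : Fin (k + 1)) (u : ℝ) :
    TR.dg (rcf g τ j) u ≤ gd g u :=
  rcf_mem (TR.Kn S u (gd g u)) (fun i => dg_le_gd g u i) (by
    show TR.dg τ u ≤ _
    rw [hτ]
    exact _root_.bot_le) j

end

end Pool.Agent.Helper47.T4
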