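import Pool.Agent.Helper47.T4.Fine

/-!
# Unsaturated given all digits of the base point ⇒ unsaturated given the digits of the corner

`Z` is the label of the window `c`, `Z''` a finer label (window `c + C e`) over which `W` (the digits of the top
coordinate) is a function of `M0` (digits of the base point of the corner) and the deeper digits `Mf` of the base point
are full given `M0`. Then conditioning on `Mf` may be replaced by conditioning on `M0`, on all events of all extensions of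
probability at least `P`, with the error `2 ε / P`.
-/

set_option autoImplicit false

namespace Pool.Agent.Helper47.T4

open Finset Filter Topology Pool.Agent.Helper69.RK Pool.Agent.Helper31.EC Pool.Agent.Helper31.EC.Sp

noncomputable section

/-- entropies on events: at most `h / P` -/
theorem rest_h_le {T : Sp} (E : ∀ k, (T.F k).Ω → Prop) (hE : 0 < ul (T.pr E)) (x y : T.L) :
    ul (T.pr E) * h (restL E hE x) (restL E hE y) ≤ h x y := by
  rcases typ_or E with ht | hE'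
  · rw [h_restL_typ E ht, ul_pr_typ E ht, one_mul]
  · have h1 := h_split E hE hE' x y
    have h3 := mul_nonneg (sub_nonneg.mpr (ul_pr_le_one E)) (h_nonneg (restL (fun k ω => ¬ E k ω) hE' x)
      (restL (fun k ω => ¬ E k ω) hE' y))
    linarith

/-- nearly maximal entropies are nearly maximal on events -/
theorem rest_h_max {T : Sp} (E : ∀ k, (T.F k).Ω → Prop) (hE : 0 < ul (T.pr E)) (x y : T.L) {M δ : ℝ}
    (h1 : M - δ ≤ h x y)
    (h2 : ∀ (F : ∀ k, (T.F k).Ω → Prop) (hF : 0 < ul (T.pr F)), h (restL F hF x) (restL F hF y) ≤ M) :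
    ul (T.pr E) * (M - h (restL E hE x) (restL E hE y)) ≤ δ := by
  rcases typ_or E with ht | hE'
  · rw [h_restL_typ E ht, ul_pr_typ E ht, one_mul]
    linarith
  · have h3 := h_split E hE hE' x y
    have h4 := mul_nonneg (sub_nonneg.mpr (ul_pr_le_one E)) (sub_nonneg.mpr (h2 _ hE'))
    nlinarith

/-- two conditionings: `h(X | A, M0) ≤ h(X | A, M0, Mf) + h(Mf | M0) - h(Mf | M0, W)` for `X`, `A ≤ W` -/
theorem h_swap {T : Sp} {X A W M0 Mf : T.L} (hX : X ≤ W) (hA : A ≤ W) :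
    h X (A ⊔ M0) ≤ h X (A ⊔ Mf ⊔ M0) + (h Mf M0 - h Mf (M0 ⊔ W)) := by
  have h1 := I_eq X Mf (A ⊔ M0)
  have h2 := I_eq' X Mf (A ⊔ M0)
  have h3 : h Mf (A ⊔ M0) ≤ h Mf M0 := h_anti le_sup_right
  have h4 : h Mf (M0 ⊔ W) ≤ h Mf (X ⊔ (A ⊔ M0)) := h_anti (by order)
  have h5 : Mf ⊔ (A ⊔ M0) = A ⊔ Mf ⊔ M0 := by rw [← sup_assoc, sup_comm Mf A]
  rw [h5] at h1
  linarith

variable {S : Sp} {Z Z'' : ∀ k, Setoid (S.F k).Ω} {e : ℝ} {he : 0 < e}

/-- **TRANSFER OF UNSATURATION** -/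
theorem un_trans (hZ : Fin2 Z Z'') {W M0 Mf : S.L} {Mx ε : ℝ} (hM0 : M0 ≤ Mf)
    (hW : h (chgL Z'' e he W) (chgL Z'' e he M0) ≤ ε)
    (hfull : Mx - ε ≤ h (chgL Z'' e he Mf) (chgL Z'' e he M0))
    (hMx : ∀ (T : Sp) (p : Pj T (S.chg Z e he)) (E : ∀ k, (T.F k).Ω → Prop) (hE : 0 < ul (T.pr E)),
      h (restL E hE (p.map (chgL Z e he Mf))) (restL E hE (p.map (chgL Z e he M0))) ≤ Mx)
    {T : Sp} (p : Pj T (S.chg Z e he)) (E : ∀ k, (T.F k).Ω → Prop) (hE : 0 < ul (T.pr E)) {P : ℝ} (hP : 0 < P)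
    (hEP : P ≤ ul (T.pr E)) {X A : S.L} (hX : X ≤ W) (hA : A ≤ W) :
    h (restL E hE (p.map (chgL Z e he X))) (restL E hE (p.map (chgL Z e he (A ⊔ M0)))) ≤
      h (restL E hE (p.map (chgL Z e he X))) (restL E hE (p.map (chgL Z e he (A ⊔ Mf)))) + 2 * ε / P := by
  -- the map of lattices
  obtain ⟨f, hf⟩ : ∃ f : S.L → (T.rest E).L, f = fun x => restL E hE (p.map (chgL Z e he x)) := ⟨_, rfl⟩
  have fm : ∀ {x y : S.L}, x ≤ y → f x ≤ f y := fun h => by
    rw [hf]; exact restL_mono E hE (p.map_mono (chgL_mono Z e he h))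
  have fs : ∀ x y : S.L, f (x ⊔ y) = f x ⊔ f y := fun x y => by
    rw [hf]
    show restL E hE (p.map (chgL Z e he (x ⊔ y))) = _
    rw [chgL_sup, p.map_sup, restL_sup]
  -- the map over the finer base
  obtain ⟨g, hg⟩ : ∃ g : S.L → ((unF Z'' p).rest E).L,
      g = fun x => restL (S := unF Z'' p) E hE ((unP Z'' p).map (chgL Z'' e he x)) := ⟨_, rfl⟩
  have gs : ∀ x y : S.L, g (x ⊔ y) = g x ⊔ g y := fun x y => by
    rw [hg]
    show restL (S := unF Z'' p) E hE ((unP Z'' p).map (chgL Z'' e he (x ⊔ y))) = _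
    rw [chgL_sup, (unP Z'' p).map_sup, restL_sup]
  have gf : ∀ x y : S.L, h (g x) (g y) ≤ h (f x) (f y) := fun x y => by
    rw [hg, hf]
    exact h_unF' p E hE hZ x y
  have hPr : 0 < ul (T.pr E) := hE
  -- `W` is known over the finer base
  have k1 : h (g W) (g M0) ≤ ε / P := by
    have e1 := rest_h_le (T := unF Z'' p) E hE ((unP Z'' p).map (chgL Z'' e he W)) ((unP Z'' p).map (chgL Z'' e he M0))
    rw [(unP Z'' p).h_map] at e1
    rw [le_div_iff₀ hP]
    have e2 : P * h (g W) (g M0) ≤ ε := by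
      refine (mul_le_mul_of_nonneg_right hEP (h_nonneg _ _)).trans ?_
      rw [hg]
      exact e1.trans hW
    linarith
  -- fullness over the finer base
  have k2 : Mx - ε / P ≤ h (g Mf) (g M0) := by
    have e1 := rest_h_max (T := unF Z'' p) E hE ((unP Z'' p).map (chgL Z'' e he Mf))
      ((unP Z'' p).map (chgL Z'' e he M0)) (M := Mx) (δ := ε) (by rw [(unP Z'' p).h_map]; exact hfull)
      (fun F hF => (h_unF' p F hF hZ Mf M0).trans (hMx T p F hF))
    have e3 : h (g Mf) (g M0) ≤ Mx := (gf Mf M0).trans (by rw [hf]; exact hMx T p E hE)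
    have e2 : P * (Mx - h (g Mf) (g M0)) ≤ ε := by
      refine (mul_le_mul_of_nonneg_right hEP (by linarith)).trans ?_
      rw [hg]
      exact e1
    have e4 : Mx - h (g Mf) (g M0) ≤ ε / P := by
      rw [le_div_iff₀ hP]
      linarith
    linarith
  have k3 : Mx - 2 * ε / P ≤ h (f Mf) (f M0 ⊔ f W) := by
    have e1 : h (g Mf) (g (M0 ⊔ W)) ≤ h (f Mf) (f (M0 ⊔ W)) := gf _ _
    rw [gs, fs] at e1
    have e2 := h_triangle (g Mf) (g W) (g M0)
    rw [sup_comm (g W)] at e2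
    have e3 : 2 * ε / P = ε / P + ε / P := by ring
    rw [e3]
    linarith
  have k4 : h (f Mf) (f M0) ≤ Mx := by rw [hf]; exact hMx T p E hE
  have k5 := h_swap (X := f X) (A := f A) (W := f W) (M0 := f M0) (Mf := f Mf) (fm hX) (fm hA)
  have k6 : f A ⊔ f Mf ⊔ f M0 = f (A ⊔ Mf) := by
    rw [fs, sup_assoc, sup_eq_left.mpr (fm hM0)]
  rw [k6, ← fs] at k5
  rw [hf] at k3 k4 k5
  linarith

end

end Pool.Agent.Helper47.T4
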