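import Pool.Agent.Helper47.T4.Ct
import Pool.Agent.Helper99.LF.St
import Pool.Agent.Helper51.LP.Rl

/-!
# (T4): the slopes of the top coordinate of a flat corner are functions of the base line

`CD U d k`: a corner over (a label of) the window `c + s e`: corner coordinates `t`, `a`, `x`; `g` are the coefficients
of the top coordinate `ζ = ∑ i, g i * (τ + 2 ^ (-s n) t) ^ i` of the EARLIER window `c`, `τ` is known to the base. The top
coordinate of the corner is `z = 2 ^ (-(1 - σ - v) n) ζ`, `0 ≤ v ≤ s`, `σ + v ≤ 1`: levels `≤ 1 - v` of `z` are levels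
`≤ σ` of `ζ` (known to the base point), levels `1 - v + u` of `z` are levels `σ + u` of `ζ` (unsaturated).
`CTe D N ρ ε` are the facts up to `ε`; `CTe.corH` : the corner of `D` is a flat corner `CorH` of NSK/Flat.lean. The
slopes are functions of the base line as digits of level `1` of the slope `j ≥ 1` are digits of level
`σ + v - j s ≤ σ` of the coefficients `g`.
-/

set_option autoImplicit false

namespace Pool.Agent.Helper47.T4

open Finset Filter Topology Pool.Agent.Helper69.RK Pool.Agent.Helper31.EC Pool.Agent.Helper31.EC.Sp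
open Pool.Agent.Helper40.NSK Pool.Agent.Helper99.EC Pool.Agent.Helper99.CC Pool.Agent.Helper99.LF

noncomputable section

/-- informations: if `G` is a function of `(L, T, Z)`, `Z` of `(L, T)`, and `T` is free given `(L, G)`, then `G` is a
function of `L` -/
theorem h_of_free {S : Sp} {G L T Z : S.L} {m e1 e2 e3 : ℝ} (h1 : h G (L ⊔ T ⊔ Z) ≤ e1) (h2 : h Z (L ⊔ T) ≤ e2)
    (h3 : h T L ≤ m) (h4 : m - e3 ≤ h T (L ⊔ G)) : h G L ≤ e1 + e2 + e3 := by
  have a1 := h_triangle G Z (L ⊔ T)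
  have a2 : h G (Z ⊔ (L ⊔ T)) ≤ e1 := by rw [sup_comm]; exact h1
  have a3 := I_eq G T L
  have a4 := I_eq' G T L
  rw [sup_comm T L] at a3
  rw [sup_comm G L] at a4
  linarith

/-- data of a corner over the window `c + s e` -/
structure CD (U : Sp) (d k : ℕ) where
  t : TR U
  a : Fin d → TR U
  x : Fin d → TR U
  g : Fin (k + 1) → TR U
  τ : TR U
  s : ℝ
  σ : ℝ
  v : ℝ
  hs : 0 ≤ s
  hσ : 0 ≤ σ
  hv : 0 ≤ v
  hvs : v ≤ s
  h1 : σ + v ≤ 1
  hτ : ∀ u, TR.dg τ u = ⊥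

namespace CD

variable {U : Sp} {d k : ℕ} (D : CD U d k)

/-- the top coordinate of the window `c` -/
def ζ : TR U := ∑ i : Fin (k + 1), D.g i * (D.τ + cs U D.s * D.t) ^ (i : ℕ)

/-- depth of the scaling -/
def o : ℝ := 1 - D.σ - D.v

theorem ho : 0 ≤ D.o := by
  have := D.h1
  unfold o
  linarith

theorem hoj (j : ℕ) : 0 ≤ D.o + j * D.s := add_nonneg D.ho (mul_nonneg (Nat.cast_nonneg j) D.hs)

/-- the corner -/
def tr : FTC U d k :=
  ⟨D.t, D.a, D.x, fun j => cs U (D.o + ((j : ℕ) : ℝ) * D.s) * rcf D.g D.τ j⟩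

/-- the top coordinate of the corner is the scaled top coordinate of the window `c` -/
theorem tr_z : D.tr.z = cs U D.o * D.ζ := by
  have h1 : ∀ j : Fin (k + 1), D.tr.c j * D.tr.t ^ (j : ℕ) =
      cs U D.o * (rcf D.g D.τ j * (cs U D.s * D.t) ^ (j : ℕ)) := by
    intro j
    show cs U (D.o + ((j : ℕ) : ℝ) * D.s) * rcf D.g D.τ j * D.t ^ (j : ℕ) = _
    rw [← cs_mul D.ho (mul_nonneg (Nat.cast_nonneg _) D.hs), ← cs_pow D.hs, mul_pow]
    ring
  unfold FTC.z ζ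
  rw [Finset.sum_congr rfl fun j _ => h1 j, ← Finset.mul_sum, rcf_sum]

/-- digits of the top coordinate -/
theorem z_dg {u : ℝ} (hu : u ≤ 1) : QS.dg (fc D.tr).z u = TR.dg D.ζ (u - D.o) := by
  rw [fc_z, QS.dg_mk _ hu, tr_z, cs_dg D.ho]

/-- the slopes -/
theorem iF_le : (fc D.tr).iF ≤ gd D.g D.σ := by
  unfold FC.iF
  rw [QS.vd_le]
  intro j
  show QS.dg (QS.mk (D.tr.c j.succ)) 1 ≤ _
  rw [QS.dg_mk _ le_rfl]
  show TR.dg (cs U (D.o + ((j.succ : ℕ) : ℝ) * D.s) * rcf D.g D.τ j.succ) 1 ≤ _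
  rw [cs_dg (D.hoj _)]
  refine (rcf_dg D.g D.hτ _ _).trans (gd_mono _ ?_)
  have h1 : (1 : ℝ) ≤ ((j.succ : ℕ) : ℝ) := by
    rw [Fin.val_succ]
    push_cast
    linarith [Nat.cast_nonneg (α := ℝ) (j : ℕ)]
  have h2 : D.s ≤ ((j.succ : ℕ) : ℝ) * D.s := le_mul_of_one_le_left D.hs h1
  have h3 := D.hvs
  unfold o
  linarith

/-- the intercept -/
theorem b_le : QS.dg (fc D.tr).b 1 ≤ gd D.g (D.σ + D.v) := by
  show QS.dg (QS.mk (D.tr.c 0)) 1 ≤ _
  rw [QS.dg_mk _ le_rfl]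
  show TR.dg (cs U (D.o + (((0 : Fin (k + 1)) : ℕ) : ℝ) * D.s) * rcf D.g D.τ 0) 1 ≤ _
  rw [cs_dg (D.hoj _)]
  refine (rcf_dg D.g D.hτ _ _).trans (gd_mono _ ?_)
  have h2 : 0 ≤ (((0 : Fin (k + 1)) : ℕ) : ℝ) * D.s := mul_nonneg (Nat.cast_nonneg _) D.hs
  unfold o
  linarith

/-- the whole line -/
theorem iA_le : (fc D.tr).iA ≤ (fc D.tr).iL ⊔ gd D.g (D.σ + D.v) := by
  unfold FC.iA
  apply _root_.sup_le le_sup_left
  apply _root_.sup_le (D.b_le.trans le_sup_right)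
  refine (D.iF_le.trans (gd_mono _ ?_)).trans le_sup_right
  linarith [D.hv]

end CD

/-- **FACTS OF A CORNER**, up to `ε` -/
structure CTe {U : Sp} {d k : ℕ} (D : CD U d k) (N : ℕ) (ρ ε : ℝ) : Prop where
  /-- heights are uniform given the line -/
  ht : 1 - ε ≤ h (TR.dg D.t 1) ((fc D.tr).iL ⊔ gd D.g (D.σ + D.v))
  /-- (i), SSL: digits of level `σ` of the coefficients are functions of the base line, the time and `ζ` -/
  fr : h (gd D.g D.σ) ((fc D.tr).iL ⊔ TR.dg D.t 1 ⊔ TR.dg D.ζ D.σ) ≤ ε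
  /-- (ii), hull: digits of level `σ` of `ζ` are functions of the base point -/
  kn : h (TR.dg D.ζ D.σ) (fc D.tr).iQ ≤ ε
  /-- directions are independent of the point -/
  hi : I (fc D.tr).iX (QS.vd (fc D.tr).y 1 ⊔ TR.dg D.ζ (D.σ + D.v)) (TR.dg D.t 1) ≤ ε
  /-- the base is full -/
  hy : d - ε ≤ h (QS.vd (fc D.tr).y 1) (TR.dg D.t 1)
  /-- digits of `ζ` of levels between `σ` and `σ + v` are unsaturated -/
  un : ∀ (T : Sp) (p : Pj T U) (E : ∀ k, (T.F k).Ω → Prop) (hE : 0 < ul (T.pr E)), ε ≤ ul (T.pr E) →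
    ∀ a b : ℝ, D.σ ≤ a → a ≤ b → b ≤ D.σ + D.v →
    h (restL E hE (p.map (TR.dg D.ζ b))) (restL E hE (p.map (TR.dg D.ζ a ⊔ (fc D.tr).iQ))) ≤ (1 - ρ) * (b - a) + ε
  /-- copies span -/
  st : ∃ w : QS.CQ U (fc D.tr).fB N, ∀ e : Fin (d + 1) → Fin (N + 1), Function.Injective e →
    Big (Matrix.of fun i j => (w.p (e i)).qs ((fc D.tr).v j)).det ε

namespace CTe

variable {U : Sp} {d k : ℕ} {D : CD U d k} {N : ℕ} {ρ ε : ℝ}

/-- (T4): digits of level `σ` of the coefficients are functions of the base line -/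
theorem gd_iL (h : CTe D N ρ ε) : Pool.Agent.Helper31.EC.h (gd D.g D.σ) (fc D.tr).iL ≤ 3 * ε := by
  have h3 : Pool.Agent.Helper31.EC.h (TR.dg D.t 1) (fc D.tr).iL ≤ 1 := by
    have := QS.h_dg_le_one (QS.mk D.t) (fc D.tr).iL
    rwa [QS.dg_mk _ le_rfl] at this
  have h4 : 1 - ε ≤ Pool.Agent.Helper31.EC.h (TR.dg D.t 1) ((fc D.tr).iL ⊔ gd D.g D.σ) :=
    h.ht.trans (h_anti (sup_le_sup_left (gd_mono _ (by linarith [D.hv])) _))
  have h2 : Pool.Agent.Helper31.EC.h (TR.dg D.ζ D.σ) ((fc D.tr).iL ⊔ TR.dg D.t 1) ≤ ε := by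
    refine le_trans (h_anti ?_) h.kn
    unfold FC.iQ
    have ht : QS.dg (fc D.tr).t 1 = TR.dg D.t 1 := QS.dg_mk _ le_rfl
    rw [ht]
    apply _root_.sup_le _ le_sup_right
    rw [QS.vd_le]
    intro i
    have e1 : QS.dg ((fc D.tr).a i) 1 ≤ (fc D.tr).iL ⊔ TR.dg D.t 1 :=
      (QS.dg_le_vd (fc D.tr).a 1 i).trans (le_sup_left.trans le_sup_left)
    have e2 : QS.dg ((fc D.tr).x i) 1 ≤ (fc D.tr).iL ⊔ TR.dg D.t 1 :=
      (QS.dg_le_vd (fc D.tr).x 1 i).trans (le_sup_right.trans le_sup_left)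
    have e3 : QS.dg (fc D.tr).t 1 ≤ (fc D.tr).iL ⊔ TR.dg D.t 1 := by
      rw [ht]
      exact le_sup_right
    exact (QS.Kn U 1 le_rfl _).add_mem e1 ((QS.Kn U 1 le_rfl _).mul_mem e3 e2)
  have h5 := h_of_free h.fr h2 h3 h4
  linarith

theorem hF (h : CTe D N ρ ε) : Pool.Agent.Helper31.EC.h (fc D.tr).iF (fc D.tr).iL ≤ 3 * ε :=
  (h_mono D.iF_le).trans h.gd_iL

/-- the top coordinate is unsaturated -/
theorem unE (h : CTe D N ρ ε) (hρ : ρ ≤ 1) {η : ℝ} (hη : 0 < η) (h1 : ε ≤ η / 2) (h2 : ε ≤ η ^ 2 / 2) :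
    UnE (fc D.tr).z (fc D.tr).iQ ρ η := by
  intro T p E hE hEη a b ha hab hb
  rw [D.z_dg hb, D.z_dg (hab.trans hb)]
  obtain ⟨a', ha'⟩ : ∃ a', a' = a - D.o := ⟨_, rfl⟩
  obtain ⟨b', hb'⟩ : ∃ b', b' = b - D.o := ⟨_, rfl⟩
  have hb1 : b' ≤ D.σ + D.v := by
    rw [hb']
    unfold CD.o
    linarith
  rw [← ha', ← hb']
  have hab' : a' ≤ b' := by rw [ha', hb']; linarith
  have e0 : b - a = b' - a' := by rw [ha', hb']; ring
  rw [e0]
  have hρ' : 0 ≤ 1 - ρ := by linarith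
  -- the level `σ` is known
  have k1 : Pool.Agent.Helper31.EC.h (restL E hE (p.map (TR.dg D.ζ D.σ))) (restL E hE (p.map (fc D.tr).iQ)) ≤ η / 2 := by
    have e1 := Pool.Agent.Helper51.LP.h_restL_le E hE (p.map (TR.dg D.ζ D.σ)) (p.map (fc D.tr).iQ)
    rw [p.h_map] at e1
    have e2 := h.kn
    have e3 : η * Pool.Agent.Helper31.EC.h (restL E hE (p.map (TR.dg D.ζ D.σ))) (restL E hE (p.map (fc D.tr).iQ)) ≤
        η * (η / 2) := by
      refine (mul_le_mul_of_nonneg_right hEη (h_nonneg _ _)).trans ?_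
      have e4 : η * (η / 2) = η ^ 2 / 2 := by ring
      rw [e4]
      exact e1.trans (e2.trans h2)
    exact le_of_mul_le_mul_left e3 hη
  rcases le_total b' D.σ with hbs | hbs
  · -- all levels are known
    have e1 : Pool.Agent.Helper31.EC.h (restL E hE (p.map (TR.dg D.ζ b'))) (restL E hE (p.map (TR.dg D.ζ a' ⊔ (fc D.tr).iQ))) ≤
        Pool.Agent.Helper31.EC.h (restL E hE (p.map (TR.dg D.ζ D.σ))) (restL E hE (p.map (fc D.tr).iQ)) :=
      (h_mono (restL_mono E hE (p.map_mono (TR.dg_mono _ hbs)))).trans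
        (h_anti (restL_mono E hE (p.map_mono le_sup_right)))
    have e2 : 0 ≤ (1 - ρ) * (b' - a') := mul_nonneg hρ' (by linarith)
    linarith
  · rcases le_total D.σ a' with has | has
    · have e1 := h.un T p E hE (by linarith) a' b' has hab' hb1
      linarith
    · -- split at `σ`
      have e1 := h.un T p E hE (by linarith) D.σ b' le_rfl hbs hb1
      have e2 := h_triangle (restL E hE (p.map (TR.dg D.ζ b'))) (restL E hE (p.map (TR.dg D.ζ D.σ)))
        (restL E hE (p.map (TR.dg D.ζ a' ⊔ (fc D.tr).iQ)))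
      have e3 : Pool.Agent.Helper31.EC.h (restL E hE (p.map (TR.dg D.ζ b')))
          (restL E hE (p.map (TR.dg D.ζ D.σ)) ⊔ restL E hE (p.map (TR.dg D.ζ a' ⊔ (fc D.tr).iQ))) ≤
          Pool.Agent.Helper31.EC.h (restL E hE (p.map (TR.dg D.ζ b')))
            (restL E hE (p.map (TR.dg D.ζ D.σ ⊔ (fc D.tr).iQ))) := by
        apply h_anti
        rw [p.map_sup, restL_sup]
        exact sup_le_sup_left (restL_mono E hE (p.map_mono le_sup_right)) _
      have e4 : Pool.Agent.Helper31.EC.h (restL E hE (p.map (TR.dg D.ζ D.σ)))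
          (restL E hE (p.map (TR.dg D.ζ a' ⊔ (fc D.tr).iQ))) ≤
          Pool.Agent.Helper31.EC.h (restL E hE (p.map (TR.dg D.ζ D.σ))) (restL E hE (p.map (fc D.tr).iQ)) :=
        h_anti (restL_mono E hE (p.map_mono le_sup_right))
      have e5 : (1 - ρ) * (b' - D.σ) ≤ (1 - ρ) * (b' - a') := mul_le_mul_of_nonneg_left (by linarith) hρ'
      linarith

/-- **CORNER**: facts up to `ε` give a flat corner up to `η` if `3 ε ≤ η`, `ε ≤ η ^ 2 / 2` -/
theorem corH (h : CTe D N ρ ε) (hρ : ρ ≤ 1) {η : ℝ} (hη : 0 < η) (h1 : 3 * ε ≤ η) (h2 : ε ≤ η ^ 2 / 2) :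
    CorH (fc D.tr) N ρ η where
  ht := by
    have e1 : QS.dg (fc D.tr).t 1 = TR.dg D.t 1 := QS.dg_mk _ le_rfl
    rw [e1]
    have e2 := h.ht.trans (h_anti D.iA_le)
    linarith
  hF := h.hF.trans h1
  hi := by
    have e1 : QS.dg (fc D.tr).t 1 = TR.dg D.t 1 := QS.dg_mk _ le_rfl
    have e2 : QS.dg (fc D.tr).z 1 = TR.dg D.ζ (D.σ + D.v) := by
      rw [D.z_dg le_rfl]
      congr 1
      unfold CD.o
      ring
    rw [e1, e2]
    have := h.hi
    linarith
  hy := by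
    have e1 : QS.dg (fc D.tr).t 1 = TR.dg D.t 1 := QS.dg_mk _ le_rfl
    rw [e1]
    have := h.hy
    linarith
  un := h.unE hρ hη (by linarith) h2
  st := by
    obtain ⟨w, hw⟩ := h.st
    refine ⟨w, fun e he δ hδ => ?_⟩
    have := hw e he δ (by linarith)
    linarith

/-- **CORNER**, exact form -/
theorem corH0 (h : CTe D N ρ 0) (hρ : ρ ≤ 1) : CorH (fc D.tr) N ρ 0 where
  ht := by
    have e1 : QS.dg (fc D.tr).t 1 = TR.dg D.t 1 := QS.dg_mk _ le_rfl
    rw [e1]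
    exact h.ht.trans (h_anti D.iA_le)
  hF := by
    have := h.hF
    linarith
  hi := by
    have e1 : QS.dg (fc D.tr).t 1 = TR.dg D.t 1 := QS.dg_mk _ le_rfl
    have e2 : QS.dg (fc D.tr).z 1 = TR.dg D.ζ (D.σ + D.v) := by
      rw [D.z_dg le_rfl]
      congr 1
      unfold CD.o
      ring
    rw [e1, e2]
    exact h.hi
  hy := by
    have e1 : QS.dg (fc D.tr).t 1 = TR.dg D.t 1 := QS.dg_mk _ le_rfl
    rw [e1]
    exact h.hy
  un := by
    intro T p E hE _ a b ha hab hb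
    rw [add_zero]
    apply le_of_forall_pos_le_add
    intro δ hδ
    have h1 : 0 < min δ (ul (T.pr E)) := lt_min hδ hE
    have h2 := h.unE hρ h1 (by linarith) (by positivity) T p E hE (min_le_right _ _) a b ha hab hb
    have h3 : min δ (ul (T.pr E)) ≤ δ := min_le_left _ _
    linarith
  st := h.st

end CTe

end

end Pool.Agent.Helper47.T4
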